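import Pool.Agent.Y682.XD.Stm2
import Pool.Agent.Y682.XT.Dsc

/-!
# The ranks
-/

set_option autoImplicit false

open NumberField IsDedekindDomain

namespace Pool.Agent.Y682.XD

open Pool.Agent.TH841.NF.D (rk)

open Pool.Agent.W97.MT (E14)

/-- the field generated by the square roots of the elements of `S` -/
noncomputable def mq (S : Finset ℤ) : IntermediateField ℚ ℂ :=
  IntermediateField.adjoin ℚ {z : ℂ | ∃ d ∈ S, z ^ 2 = (d : ℂ)}

lemma mq_empty : mq ∅ = ⊥ := by
  unfold mq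
  rw [IntermediateField.adjoin_eq_bot_iff]
  rintro z ⟨d, hd, -⟩
  exact absurd hd (Finset.notMem_empty d)

lemma mq_insert (S : Finset ℤ) (d : ℤ) {z : ℂ} (hz : z ^ 2 = (d : ℂ)) :
    mq (insert d S) = mq S ⊔ IntermediateField.adjoin ℚ {z} := by
  apply le_antisymm
  · unfold mq
    rw [IntermediateField.adjoin_le_iff]
    rintro w ⟨e, he, hw⟩
    rcases Finset.mem_insert.1 he with rfl | he
    · have h1 : z ∈ IntermediateField.adjoin ℚ {z} := IntermediateField.mem_adjoin_simple_self ℚ z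
      have h2 : w ∈ IntermediateField.adjoin ℚ {z} := by
        rcases sq_eq_sq_iff_eq_or_eq_neg.1 (hw.trans hz.symm) with h | h
        · rw [h]; exact h1
        · rw [h]; exact neg_mem h1
      exact (le_sup_right : _ ≤ (IntermediateField.adjoin ℚ {z : ℂ | ∃ d ∈ S, z ^ 2 = (d : ℂ)}) ⊔ _) h2
    · exact (le_sup_left : (IntermediateField.adjoin ℚ {z : ℂ | ∃ d ∈ S, z ^ 2 = (d : ℂ)}) ≤ _ ⊔
        IntermediateField.adjoin ℚ {z}) (IntermediateField.subset_adjoin ℚ _ ⟨e, he, hw⟩)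
  · refine sup_le ?_ ?_
    · unfold mq
      refine IntermediateField.adjoin.mono ℚ _ _ ?_
      rintro w ⟨e, he, hw⟩
      exact ⟨e, Finset.mem_insert_of_mem he, hw⟩
    · rw [IntermediateField.adjoin_simple_le_iff]
      exact IntermediateField.subset_adjoin ℚ _ ⟨d, Finset.mem_insert_self _ _, hz⟩

/-- at most one place above each prime factor -/
def OneP (K : Type) [Field K] [NumberField K] (d : ℤ) : Prop :=
  ∀ p : ℕ, p.Prime → (p : ℤ) ∣ d → ∀ v w : HeightOneSpectrum (𝓞 K),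
    ((p : ℕ) : 𝓞 K) ∈ v.asIdeal → ((p : ℕ) : 𝓞 K) ∈ w.asIdeal → v = w

lemma OneP.mul {K : Type} [Field K] [NumberField K] {a b : ℤ} (ha : OneP K a) (hb : OneP K b) :
    OneP K (a * b) := by
  intro p hp hpd
  rcases (Nat.prime_iff_prime_int.1 hp).dvd_or_dvd hpd with h | h
  · exact ha p hp h
  · exact hb p hp h

/-- the rank of the twist by `d` -/
noncomputable def RR (F : Type) [Field F] [NumberField F] (d : ℤ) : ℕ :=
  rk (gc (13 * d) (128 * d ^ 2) F)

lemma RR_iso (hRKE : S_RKE) {K K' : Type} [Field K] [NumberField K] [Field K'] [NumberField K']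
    (e : K ≃+* K') {d : ℤ} (hd : d ≠ 0) : RR K d = RR K' d := by
  have h2 : d ^ 2 ≠ 0 := pow_ne_zero 2 hd
  refine hRKE K K' e _ _ (mul_ne_zero (by norm_num) h2) ?_
  have e1 : (13 * d) ^ 2 - 4 * (128 * d ^ 2) = -343 * d ^ 2 := by ring
  rw [e1]
  exact mul_ne_zero (by norm_num) h2

/-- the quadratic formula -/
lemma RR_quad (hQF : S_QF) (hDEG : S_DEG2) (F F' : IntermediateField ℚ ℂ) [NumberField F]
    [NumberField F'] {z : ℂ} {d : ℤ} (hd : d ≠ 0) (hz : z ∉ F) (hz2 : z ^ 2 = (d : ℂ))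
    (hF' : F' = F ⊔ IntermediateField.adjoin ℚ {z}) {c : ℤ} (hc : c ≠ 0) :
    RR F' c = RR F c + RR F (c * d) := by
  have hle : F ≤ F' := by rw [hF']; exact le_sup_left
  have hzF' : z ∈ F' := by
    rw [hF']
    exact (le_sup_right : _ ≤ F ⊔ IntermediateField.adjoin ℚ {z})
      (IntermediateField.mem_adjoin_simple_self ℚ z)
  let _ : Algebra F F' := (IntermediateField.inclusion hle).toRingHom.toAlgebra
  have h2 : c ^ 2 ≠ 0 := pow_ne_zero 2 hc
  have h3 := hQF F F' (13 * c) (128 * c ^ 2) d (⟨z, hzF'⟩ : F') (mul_ne_zero (by norm_num) h2) (by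
    have e1 : (13 * c) ^ 2 - 4 * (128 * c ^ 2) = -343 * c ^ 2 := by ring
    rw [e1]
    exact mul_ne_zero (by norm_num) h2) hd (Subtype.ext (by
      show z ^ 2 = _
      rw [hz2]
      rfl)) (hDEG F F' z d hz hz2 hle hF') (by
      intro x hx
      apply hz
      have h4 := congrArg (fun y : F' => (y : ℂ)) hx
      have h5 : (x : ℂ) = z := h4
      rw [← h5]
      exact x.2)
  unfold RR
  rw [h3]
  congr 2
  · congr 1
    · ring
    · ring

theorem finDim_of_le {F F' : IntermediateField ℚ ℂ} (h : F ≤ F') [FiniteDimensional ℚ F'] :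
    FiniteDimensional ℚ F :=
  FiniteDimensional.of_injective (IntermediateField.inclusion h).toLinearMap
    (IntermediateField.inclusion h).injective

/-- **The ranks** -/
theorem rank_stable (hQF : S_QF) (hDEG : S_DEG2) (hSUP : S_SUP) (hTW : S_TW) (hRKE : S_RKE)
    (K : IntermediateField ℚ ℂ) [NumberField K] (K₁ : Type) [Field K₁] [NumberField K₁]
    (e : K ≃+* K₁) (hreal : ∀ w : InfinitePlace K₁, w.IsReal) (hN : Odd (Nat.card (NCl K₁)))
    (hodd : Odd (Module.finrank ℚ K₁)) (hodd' : Odd (Module.finrank ℚ K))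
    (h2 : (Ideal.span {(2 : 𝓞 K₁)}).IsPrime) (h7 : (Ideal.span {(7 : 𝓞 K₁)}).IsPrime)
    (S : Finset ℤ) : (∀ d ∈ S, Odd d ∧ OneP K₁ d) →
    (FiniteDimensional ℚ (mq S) ∧ ∃ n, Module.finrank ℚ (mq S) = 2 ^ n) ∧
    ∀ (F₀ F : IntermediateField ℚ ℂ) [NumberField F₀] [NumberField F], F₀ = mq S → F = F₀ ⊔ K →
      ∀ c : ℤ, Odd c → OneP K₁ c → RR F c = RR F₀ c := by
  classical
  induction S using Finset.induction_on with
  | empty =>
    intro _
    refine ⟨⟨?_, 0, ?_⟩, ?_⟩
    · rw [mq_empty]; infer_instance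
    · rw [mq_empty, IntermediateField.finrank_bot, pow_zero]
    · intro F₀ F _ _ hF₀ hF c hc h1c
      rw [mq_empty] at hF₀
      subst hF₀
      rw [bot_sup_eq] at hF
      subst hF
      have hc0 : c ≠ 0 := by rintro rfl; exact absurd hc (by decide)
      have hq : RR ℚ c = RR (⊥ : IntermediateField ℚ ℂ) c :=
        RR_iso hRKE (IntermediateField.botEquiv ℚ ℂ).symm.toRingEquiv hc0
      rw [← hq, RR_iso hRKE e hc0]
      exact hTW K₁ hreal hN hodd h2 h7 c hc h1c
  | insert d S hdS ih =>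
    intro hS
    obtain ⟨⟨hfd, n, hn⟩, ih'⟩ := ih (fun e he => hS e (Finset.mem_insert_of_mem he))
    obtain ⟨hd, hd1⟩ := hS d (Finset.mem_insert_self _ _)
    have hd0 : d ≠ 0 := by rintro rfl; exact absurd hd (by decide)
    obtain ⟨z, hz⟩ : ∃ z : ℂ, z ^ 2 = (d : ℂ) := IsAlgClosed.exists_pow_nat_eq _ (by norm_num)
    have hins := mq_insert S d hz
    have hG₀ : NumberField (mq S) := { to_charZero := inferInstance, to_finiteDimensional := hfd }
    have hGf : FiniteDimensional ℚ (mq S ⊔ K : IntermediateField ℚ ℂ) :=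
      IntermediateField.finiteDimensional_sup _ _
    have hG : NumberField (mq S ⊔ K : IntermediateField ℚ ℂ) :=
      { to_charZero := inferInstance, to_finiteDimensional := hGf }
    by_cases hz0 : z ∈ mq S
    · have hins' : mq (insert d S) = mq S := by
        rw [hins]
        exact sup_eq_left.2 ((IntermediateField.adjoin_simple_le_iff).2 hz0)
      rw [hins']
      exact ⟨⟨hfd, n, hn⟩, ih'⟩
    · obtain ⟨hzG, hdeg⟩ := hSUP (mq S) K n hn hodd' z hz0 ⟨d, hz⟩
      refine ⟨⟨?_, n + 1, ?_⟩, ?_⟩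
      · rw [hins]
        have : FiniteDimensional ℚ (IntermediateField.adjoin ℚ {z} : IntermediateField ℚ ℂ) :=
          IntermediateField.adjoin.finiteDimensional ⟨Polynomial.X ^ 2 - Polynomial.C (d : ℚ),
            Polynomial.monic_X_pow_sub_C _ (by norm_num), by
              rw [Polynomial.eval₂_sub, Polynomial.eval₂_pow, Polynomial.eval₂_X,
                Polynomial.eval₂_C, hz, map_intCast, sub_self]⟩
        exact IntermediateField.finiteDimensional_sup _ _
      · rw [hins]; exact hdeg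
      · intro F₀ F _ _ hF₀ hF c hc h1c
        have hc0 : c ≠ 0 := by rintro rfl; exact absurd hc (by decide)
        have hF' : F = (mq S ⊔ K) ⊔ IntermediateField.adjoin ℚ {z} := by
          rw [hF, hF₀, hins, sup_right_comm]
        rw [RR_quad hQF hDEG (mq S) F₀ hd0 hz0 hz (hF₀.trans hins) hc0,
          RR_quad hQF hDEG (mq S ⊔ K) F hd0 hzG hz hF' hc0,
          ih' (mq S) (mq S ⊔ K) rfl rfl c hc h1c,
          ih' (mq S) (mq S ⊔ K) rfl rfl (c * d) (hc.mul hd) (h1c.mul hd1)]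

/-- positive integers with prime factors inert in `ℚ(√-7)` and `ℚ(√2)` -/
def InP (d : ℤ) : Prop := 0 < d ∧ ∀ p : ℕ, p.Prime → (p : ℤ) ∣ d →
  p % 8 = 5 ∧ (p % 7 = 3 ∨ p % 7 = 5 ∨ p % 7 = 6)

lemma InP.mul {a b : ℤ} (ha : InP a) (hb : InP b) : InP (a * b) := by
  refine ⟨mul_pos ha.1 hb.1, fun p hp hpd => ?_⟩
  rcases (Nat.prime_iff_prime_int.1 hp).dvd_or_dvd hpd with h | h
  · exact ha.2 p hp h
  · exact hb.2 p hp h

lemma RR_zero (hZ : S_ZERO) (hSQ : S_SQ) {c : ℤ} (hc : InP c) : RR ℚ c = 0 := by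
  classical
  obtain ⟨hc0, hcp⟩ := hc
  obtain ⟨n, rfl⟩ : ∃ n : ℕ, c = n := ⟨c.toNat, by omega⟩
  have hn0 : n ≠ 0 := by rintro rfl; exact absurd hc0 (by decide)
  obtain ⟨a, b, hab, ha⟩ := Nat.sq_mul_squarefree n
  have hb0 : b ≠ 0 := by
    rintro rfl
    apply hn0
    rw [← hab]; simp
  have hT : ∀ q ∈ a.primeFactors, q.Prime ∧ q % 8 = 5 ∧ (q % 7 = 3 ∨ q % 7 = 5 ∨ q % 7 = 6) := by
    intro q hq
    have hqp := Nat.prime_of_mem_primeFactors hq
    have hqn : q ∣ n := by
      rw [← hab]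
      exact dvd_mul_of_dvd_right (Nat.dvd_of_mem_primeFactors hq) _
    exact ⟨hqp, hcp q hqp (by exact_mod_cast hqn)⟩
  have h1 := hZ a.primeFactors hT
  rw [Nat.prod_primeFactors_of_squarefree ha] at h1
  have ha0 : a ≠ 0 := ha.ne_zero
  have ha2 : ((a : ℤ)) ^ 2 ≠ 0 := pow_ne_zero 2 (by exact_mod_cast ha0)
  have h2 := hSQ ℚ (13 * (a : ℤ)) (128 * (a : ℤ) ^ 2) b (mul_ne_zero (by norm_num) ha2) (by
    have e1 : (13 * (a : ℤ)) ^ 2 - 4 * (128 * (a : ℤ) ^ 2) = -343 * (a : ℤ) ^ 2 := by ring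
    rw [e1]
    exact mul_ne_zero (by norm_num) ha2) (by exact_mod_cast hb0)
  rw [h1] at h2
  unfold RR
  rw [← h2]
  congr 2
  · rw [← hab]; push_cast; ring
  · rw [← hab]; push_cast; ring

/-- the rank zero -/
theorem rank_zero (hQF : S_QF) (hDEG : S_DEG2) (hRKE : S_RKE) (hZ : S_ZERO) (hSQ : S_SQ)
    (S : Finset ℤ) : (∀ d ∈ S, InP d) → FiniteDimensional ℚ (mq S) ∧
    ∀ (F₀ : IntermediateField ℚ ℂ) [NumberField F₀], F₀ = mq S →
      ∀ c : ℤ, InP c → RR F₀ c = 0 := by
  classical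
  induction S using Finset.induction_on with
  | empty =>
    intro _
    refine ⟨?_, ?_⟩
    · rw [mq_empty]; infer_instance
    · intro F₀ _ hF₀ c hc
      rw [mq_empty] at hF₀
      subst hF₀
      have hq : RR ℚ c = RR (⊥ : IntermediateField ℚ ℂ) c :=
        RR_iso hRKE (IntermediateField.botEquiv ℚ ℂ).symm.toRingEquiv hc.1.ne'
      rw [← hq]
      exact RR_zero hZ hSQ hc
  | insert d S hdS ih =>
    intro hS
    obtain ⟨hfd, ih'⟩ := ih (fun e he => hS e (Finset.mem_insert_of_mem he))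
    have hd := hS d (Finset.mem_insert_self _ _)
    obtain ⟨z, hz⟩ : ∃ z : ℂ, z ^ 2 = (d : ℂ) := IsAlgClosed.exists_pow_nat_eq _ (by norm_num)
    have hins := mq_insert S d hz
    have hG₀ : NumberField (mq S) := { to_charZero := inferInstance, to_finiteDimensional := hfd }
    by_cases hz0 : z ∈ mq S
    · have hins' : mq (insert d S) = mq S := by
        rw [hins]
        exact sup_eq_left.2 ((IntermediateField.adjoin_simple_le_iff).2 hz0)
      rw [hins']
      exact ⟨hfd, ih'⟩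
    · refine ⟨?_, ?_⟩
      · rw [hins]
        have : FiniteDimensional ℚ (IntermediateField.adjoin ℚ {z} : IntermediateField ℚ ℂ) :=
          IntermediateField.adjoin.finiteDimensional ⟨Polynomial.X ^ 2 - Polynomial.C (d : ℚ),
            Polynomial.monic_X_pow_sub_C _ (by norm_num), by
              rw [Polynomial.eval₂_sub, Polynomial.eval₂_pow, Polynomial.eval₂_X,
                Polynomial.eval₂_C, hz, map_intCast, sub_self]⟩
        exact IntermediateField.finiteDimensional_sup _ _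
      · intro F₀ _ hF₀ c hc
        rw [RR_quad hQF hDEG (mq S) F₀ hd.1.ne' hz0 hz (hF₀.trans hins) hc.1.ne',
          ih' (mq S) rfl c hc, ih' (mq S) rfl (c * d) (hc.mul hd)]

/-- the rank of `X_0(14)` -/
lemma rank_E (F : Type) [Field F] [NumberField F] :
    @Module.finrank ℤ (E14.map (Int.castRingHom F)).toAffine.Point _
    (@WeierstrassCurve.Affine.Point.instAddCommGroup F _ (E14.map (Int.castRingHom F)).toAffine
      (Classical.decEq F)).toAddCommMonoid _ = RR F 1 := by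
  classical
  obtain ⟨⟨e1⟩, -⟩ := Pool.Agent.Y655.XT.s_shavc F (E14.map (Int.castRingHom F))
    (Y682.wc 13 128) (Pool.Agent.Y682.XT.CV F) Pool.Agent.Y682.XT.disc_ne
    Pool.Agent.Y682.XT.cv_eq
  have h2 : gc (13 * 1) (128 * 1 ^ 2) F = Y682.wc 13 128 := by
    unfold gc Y682.wc
    ext <;> simp
  unfold RR
  rw [h2]
  unfold rk
  exact LinearEquiv.finrank_eq e1.toIntLinearEquiv

end Pool.Agent.Y682.XD
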