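import Pool.Agent.Y682.XD.Nvc
import Pool.Agent.Y18.NF.Chars

/-!
# The characters of the multiquadratic field in the inert case
-/

set_option autoImplicit false

open Finset NumberField IsCyclotomicExtension.Rat H300.HW
open scoped symmDiff

namespace Pool.Agent.Y682.XD

open Pool.Agent.W97.MT (ap E14 II)

open Pool.Agent.Y18.BSD

lemma conductor_changeLevel {d n : ℕ} [NeZero n] (h : d ∣ n) {ψ : DirichletCharacter ℂ d}
    (hψ : ψ.IsPrimitive) : (DirichletCharacter.changeLevel h ψ).conductor = d := by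
  have hd : NeZero d := ⟨fun h0 => NeZero.ne n (Nat.eq_zero_of_zero_dvd (h0 ▸ h))⟩
  set χ := DirichletCharacter.changeLevel h ψ with hχ
  have h1 : χ.conductor ∣ d := by
    apply χ.conductor_dvd_of_mem_conductorSet
    rw [DirichletCharacter.mem_conductorSet_iff]
    exact ⟨h, ψ, hχ⟩
  refine Nat.dvd_antisymm h1 ?_
  -- `ψ` factors through the conductor of `χ`
  have h2 : ψ = DirichletCharacter.changeLevel h1 χ.primitiveCharacter := by
    apply DirichletCharacter.changeLevel_injective h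
    rw [← DirichletCharacter.changeLevel_trans, ← hχ, χ.changeLevel_primitiveCharacter]
  have h3 : ψ.conductor ∣ χ.conductor := by
    apply ψ.conductor_dvd_of_mem_conductorSet
    rw [DirichletCharacter.mem_conductorSet_iff]
    exact ⟨h1, χ.primitiveCharacter, h2⟩
  rwa [(DirichletCharacter.isPrimitive_def ψ).1 hψ] at h3

theorem base_ne (hB : S_BASEL) {s t : ℚ → ℤ} {Op Om : ℝ} (hS : Sy s t Op Om) {N : ℕ} [NeZero N]
    {L : Type} [Field L] [NumberField L] [IsCyclotomicExtension {N} ℚ L]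
    (F₁ : IntermediateField ℚ L) (S0 : Finset ℕ)
    (h0 : ∀ q ∈ S0, q.Prime ∧ q % 8 = 5 ∧ (q % 7 = 3 ∨ q % 7 = 5 ∨ q % 7 = 6))
    (hn : dd S0 ∣ N)
    (hF : F₁ ≤ IntermediateField.adjoin ℚ {z : L | ∃ T ⊆ S0, z ^ 2 = ((disc T : ℤ) : L)})
    (χ : DirichletCharacter ℂ N) (hχ : χ ∈ YY N L F₁) :
    haveI : NeZero χ.conductor := ⟨χ.conductor_ne_zero⟩
    ∑ u : (ZMod χ.conductor)ˣ, (χ.primitiveCharacter)⁻¹ (u : ZMod χ.conductor) *
      II (((u : ZMod χ.conductor).val : ℚ) / χ.conductor) ≠ 0 := by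
  have hnz : NeZero χ.conductor := ⟨χ.conductor_ne_zero⟩
  have hp2 : ∀ q ∈ S0, q.Prime ∧ q ≠ 2 := fun q hq => ⟨(h0 q hq).1, by
    rintro rfl
    have := (h0 2 hq).2.1
    omega⟩
  obtain ⟨T, hTS, -, hT⟩ := Pool.Agent.Y18.NF.YY_sub N L {T : Finset ℕ | T ⊆ S0} S0 hp2 hn
    (Finset.empty_subset _) (fun S hS T hT => by
      intro q hq
      rcases Finset.mem_symmDiff.1 hq with h | h
      · exact hS h.1
      · exact hT h.1) F₁ (by
      refine hF.trans (IntermediateField.adjoin.mono ℚ _ _ ?_)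
      rintro z ⟨T, hT, hz⟩
      exact ⟨T, hT, hT, hz⟩) hχ
  have hTS' : T ⊆ S0 := hTS
  have hTp : ∀ q ∈ T, q.Prime ∧ q ≠ 2 := fun q hq => hp2 q (hTS' hq)
  have hTn : dd T ∣ N := (dd_dvd hTS').trans hn
  obtain ⟨ψ, hψ, hψj⟩ := H385.jac_char (dd T) (dd_odd hTp) (dd_sqfree fun q hq => (hTp q hq).1)
  have h2 : χ = DirichletCharacter.changeLevel hTn ψ := by
    apply MulChar.ext
    intro u
    rw [hT u, DirichletCharacter.changeLevel_eq_cast_of_dvd]
    have := hψj (u : ZMod N).val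
    rw [ZMod.natCast_val] at this
    exact this.symm
  have hcond : χ.conductor = dd T := by
    rw [h2]
    exact conductor_changeLevel hTn hψ
  refine hB s Op hS.pos hS.H.toSymb hS.re T (fun q hq => h0 q (hTS' hq)) χ.conductor hcond
    (χ.primitiveCharacter)⁻¹ fun u => ?_
  have h3 := Pool.Agent.Y18.NF.pv_jac N hTp hTn hT (u : ZMod χ.conductor).val
  rw [ZMod.natCast_val, ZMod.cast_id', id] at h3
  have h5 : jacobiSym ((u : ZMod χ.conductor).val : ℤ) χ.conductor =
      jacobiSym ((u : ZMod χ.conductor).val : ℤ) (dd T) := congrArg _ hcond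
  rw [MulChar.inv_apply_eq_inv', h3, h5]
  have h4 : jacobiSym ((u : ZMod χ.conductor).val : ℤ) (dd T) = 1 ∨
      jacobiSym ((u : ZMod χ.conductor).val : ℤ) (dd T) = -1 := by
    rw [← h5]
    apply jacobiSym.eq_one_or_neg_one
    rw [Int.gcd_natCast_natCast]
    exact ZMod.val_coe_unit_coprime u
  rcases h4 with h4 | h4
  · rw [h4]; norm_num
  · rw [h4]; norm_num

end Pool.Agent.Y682.XD
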