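import Mathlib
import Pool.Agent.Y279.XD.EmbM

/-!
# Multiquadratic fields inside the complex numbers
-/

set_option autoImplicit false

open NumberField IsCyclotomicExtension.Rat

namespace Pool.Agent.Y682.XD

open Pool.Agent.Y279.XD (gauss_q star_mod prod_mod)

/-- the square roots of the squarefree integers `1` modulo `4` -/
lemma sqrt_memZ (N : ℕ) [NeZero N] (L : Type) [Field L] [NumberField L]
    [IsCyclotomicExtension {N} ℚ L] (d : ℤ) (hd : d ∣ (N : ℤ)) (h4 : d % 4 = 1)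
    (hsq : Squarefree d) : ∃ g : L, g ^ 2 = (d : L) := by
  classical
  have hζ := IsCyclotomicExtension.zeta_spec N ℚ L
  set n : ℕ := d.natAbs with hn
  have hnN : n ∣ N := by
    have := Int.natAbs_dvd_natAbs.2 hd
    rwa [Int.natAbs_natCast] at this
  have hnsq : Squarefree n := Int.squarefree_natAbs.2 hsq
  have hn2 : n % 2 = 1 := by omega
  have h1 : ∀ q : ℕ, ∃ g : L, q ∈ n.primeFactors → g ^ 2 = (((-1 : ℤ) ^ (q / 2) * q : ℤ) : L) := by
    intro q
    by_cases hq : q ∈ n.primeFactors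
    · have hqp := Nat.prime_of_mem_primeFactors hq
      have hqd := Nat.dvd_of_mem_primeFactors hq
      have hq2 : q ≠ 2 := by
        rintro rfl
        omega
      obtain ⟨m, hm⟩ := hqd.trans hnN
      have hζq := hζ.pow (NeZero.pos N) (show N = m * q by rw [hm, mul_comm])
      obtain ⟨g, hg⟩ := gauss_q hqp hq2 hζq
      exact ⟨g, fun _ => hg⟩
    · exact ⟨0, fun h => absurd h hq⟩
  choose g hg using h1
  refine ⟨∏ q ∈ n.primeFactors, g q, ?_⟩
  have e1 : (∏ q ∈ n.primeFactors, g q) ^ 2 =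
      ((∏ q ∈ n.primeFactors, ((-1 : ℤ) ^ (q / 2) * q) : ℤ) : L) := by
    rw [← Finset.prod_pow]
    push_cast
    refine Finset.prod_congr rfl fun q hq => ?_
    rw [hg q hq]
    push_cast
    rfl
  have e2 : (∏ q ∈ n.primeFactors, ((-1 : ℤ) ^ (q / 2) * q) : ℤ) = d := by
    have hodd : ∀ q ∈ n.primeFactors, q % 2 = 1 := by
      intro q hq
      refine (Nat.prime_of_mem_primeFactors hq).eq_two_or_odd.resolve_left ?_
      rintro rfl
      have := Nat.dvd_of_mem_primeFactors hq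
      omega
    have a1 := prod_mod n.primeFactors (fun q => (-1 : ℤ) ^ (q / 2) * q)
      fun q hq => star_mod (hodd q hq)
    have a2 : (∏ q ∈ n.primeFactors, ((-1 : ℤ) ^ (q / 2) * q) : ℤ) =
        (∏ q ∈ n.primeFactors, (-1 : ℤ) ^ (q / 2)) * n := by
      rw [Finset.prod_mul_distrib]
      congr 1
      have := Nat.prod_primeFactors_of_squarefree hnsq
      rw [← Nat.cast_prod, this]
    have a3 : (∏ q ∈ n.primeFactors, (-1 : ℤ) ^ (q / 2)) = 1 ∨
        (∏ q ∈ n.primeFactors, (-1 : ℤ) ^ (q / 2)) = -1 := by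
      rw [Finset.prod_pow_eq_pow_sum]
      exact neg_one_pow_eq_or ℤ _
    have a4 : d = n ∨ d = -n := Int.natAbs_eq d
    rw [a2] at a1 ⊢
    rcases a3 with a3 | a3 <;> rcases a4 with a4 | a4 <;> rw [a3] at a1 ⊢ <;> omega
  rw [e1, e2]

/-- **EMB** for integers -/
theorem embz (q N : ℕ) [NeZero q] [NeZero N] (hqN : q ∣ N) (L₁ L : Type) [Field L₁]
    [NumberField L₁] [IsCyclotomicExtension {q} ℚ L₁] [Field L] [NumberField L]
    [IsCyclotomicExtension {N} ℚ L] (K F₀ : IntermediateField ℚ ℂ)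
    (hK : K ≤ IntermediateField.adjoin ℚ {z : ℂ | z ^ q = 1}) (S : Set ℤ)
    (hS : ∀ d ∈ S, d ∣ (N : ℤ) ∧ d % 4 = 1 ∧ Squarefree d)
    (hF : F₀ = IntermediateField.adjoin ℚ {z : ℂ | ∃ d ∈ S, z ^ 2 = (d : ℂ)}) :
    ∃ (φ : L →ₐ[ℚ] ℂ) (ι : L₁ →ₐ[ℚ] L) (K₁ : IntermediateField ℚ L₁) (F₁ : IntermediateField ℚ L),
      K₁.map (φ.comp ι) = K ∧ F₁.map φ = F₀ ∧ (∀ σ : Gal(L/ℚ), ∀ x ∈ F₁, σ (σ x) = x) := by
  classical
  let φ : L →ₐ[ℚ] ℂ := IsAlgClosed.lift
  have hζ₁ := IsCyclotomicExtension.zeta_spec q ℚ L₁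
  have hζ := IsCyclotomicExtension.zeta_spec N ℚ L
  obtain ⟨m, hm⟩ := hqN
  have hζq := hζ.pow (NeZero.pos N) (show N = m * q by rw [hm, mul_comm])
  let ι : L₁ →ₐ[ℚ] L := (hζ₁.powerBasis ℚ).lift (IsCyclotomicExtension.zeta N ℚ L ^ m) (by
    rw [IsPrimitiveRoot.powerBasis_gen, ← Polynomial.cyclotomic_eq_minpoly_rat hζ₁ (NeZero.pos q),
      Polynomial.aeval_def, Polynomial.eval₂_eq_eval_map, Polynomial.map_cyclotomic]
    exact hζq.isRoot_cyclotomic (NeZero.pos q))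
  -- the first field
  have hKr : K ≤ (φ.comp ι).fieldRange := by
    refine hK.trans (IntermediateField.adjoin_le_iff.2 ?_)
    intro z hz
    have hz' : z ^ q = 1 := hz
    have hp : IsPrimitiveRoot ((φ.comp ι) (IsCyclotomicExtension.zeta q ℚ L₁)) q :=
      hζ₁.map_of_injective (φ.comp ι).toRingHom.injective
    obtain ⟨i, -, hi⟩ := hp.eq_pow_of_pow_eq_one hz'
    exact ⟨IsCyclotomicExtension.zeta q ℚ L₁ ^ i, by rw [← hi]; exact map_pow _ _ _⟩
  -- the square roots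
  have hroot : ∀ z : ℂ, (∃ d ∈ S, z ^ 2 = (d : ℂ)) → ∃ g : L, φ g = z ∧ ∃ d : ℤ, g ^ 2 = (d : L) := by
    rintro z ⟨d, hd, hz⟩
    obtain ⟨h1, h2, h3⟩ := hS d hd
    obtain ⟨g, hg⟩ := sqrt_memZ N L d h1 h2 h3
    have h4 : (φ g) ^ 2 = (d : ℂ) := by rw [← map_pow, hg, map_intCast]
    rcases sq_eq_sq_iff_eq_or_eq_neg.1 (hz.trans h4.symm) with h | h
    · exact ⟨g, h.symm, d, hg⟩
    · exact ⟨-g, by rw [map_neg, h], d, by rw [neg_sq, hg]⟩
  have hFr : F₀ ≤ φ.fieldRange := by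
    rw [hF]
    refine IntermediateField.adjoin_le_iff.2 ?_
    intro z hz
    obtain ⟨g, hg, -⟩ := hroot z hz
    exact ⟨g, hg⟩
  refine ⟨φ, ι, K.comap (φ.comp ι), F₀.comap φ, IntermediateField.map_comap_eq_self hKr,
    IntermediateField.map_comap_eq_self hFr, ?_⟩
  intro σ x hx
  have hx' : φ x ∈ F₀ := hx
  let E : IntermediateField ℚ L := IntermediateField.fixedField (Subgroup.zpowers (σ * σ))
  have hE : F₀ ≤ E.map φ := by
    rw [hF]
    refine IntermediateField.adjoin_le_iff.2 ?_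
    intro z hz
    obtain ⟨g, hg, d, hgd⟩ := hroot z hz
    refine ⟨g, ?_, hg⟩
    have h1 : σ g ^ 2 = g ^ 2 := by rw [← map_pow, hgd, map_intCast]
    have h2 : σ (σ g) = g := by
      rcases sq_eq_sq_iff_eq_or_eq_neg.1 h1 with h | h
      · rw [h, h]
      · rw [h, map_neg, h, neg_neg]
    change g ∈ E
    rw [IntermediateField.mem_fixedField_iff]
    intro τ hτ
    have h3 : Subgroup.zpowers (σ * σ) ≤ MulAction.stabilizer Gal(L/ℚ) g := by
      rw [Subgroup.zpowers_le]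
      exact h2
    exact h3 hτ
  obtain ⟨y, hy, hyx⟩ := hE hx'
  have h3 : y = x := φ.toRingHom.injective hyx
  subst h3
  have hy' : y ∈ E := hy
  rw [IntermediateField.mem_fixedField_iff] at hy'
  exact hy' (σ * σ) (Subgroup.mem_zpowers _)

end Pool.Agent.Y682.XD
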