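import Pool.Agent.Y682.XD.Stm2
import Pool.Agent.Y682.XT.Cnf

/-!
# Further statements
-/

set_option autoImplicit false

open NumberField IsDedekindDomain

namespace Pool.Agent.Y682.XD

/-- RAM: a subfield of the cyclotomic field of the powers of `l` has one place above `l` -/
def S_RAM : Prop := ∀ (l k : ℕ) [NeZero (l ^ (k + 1))], l.Prime → ∀ (L : Type) [Field L]
  [NumberField L] [IsCyclotomicExtension {l ^ (k + 1)} ℚ L] (K : IntermediateField ℚ L)
  (v w : HeightOneSpectrum (𝓞 K)), ((l : ℕ) : 𝓞 K) ∈ v.asIdeal → ((l : ℕ) : 𝓞 K) ∈ w.asIdeal →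
  v = w

end Pool.Agent.Y682.XD
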