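import Pool.Agent.Y682.XD.Nvc
import Pool.Agent.Y700.Sym

/-!
# The even and the odd modular symbol
-/

set_option autoImplicit false

namespace Pool.Agent.Y682.XD

open Pool.Agent.W97.TW Pool.Agent.W97.MT Pool.Agent.Y687

/-- the two symbols -/
theorem exists_sy : ∃ (s t : ℚ → ℤ) (Op Om : ℝ), Sy s t Op Om := by
  obtain ⟨s, L, Op, Om, hOp, hOm, g2, g3, hL, H, hv⟩ := Pool.Agent.Y682.XT.exists_symb3
  obtain ⟨-, -, -, -, -, -, i7⟩ := integrals hcp hqe hode L g2 g3 hinj htors
  have key : ∀ r : ℚ, ∃ t : ℤ, r.den.Coprime 14 → (II r).im = t * Om ∧ (2 : ℤ) ∣ t - s r - 1 := by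
    intro r
    by_cases hr : r.den.Coprime 14
    · have h2 : ¬ (2 : ℤ) ∣ r.den := by
        intro h
        have h3 : (2 : ℕ) ∣ r.den := by exact_mod_cast h
        have h4 : (2 : ℕ) ∣ Nat.gcd r.den 14 := Nat.dvd_gcd h3 (by norm_num)
        rw [hr] at h4
        omega
      have h7 : ¬ (7 : ℤ) ∣ r.den := by
        intro h
        have h3 : (7 : ℕ) ∣ r.den := by exact_mod_cast h
        have h4 : (7 : ℕ) ∣ Nat.gcd r.den 14 := Nat.dvd_gcd h3 (by norm_num)
        rw [hr] at h4
        omega
      obtain ⟨a, b, hab, hw⟩ := (hL _).1 (i7 r h2 h7)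
      refine ⟨b, fun _ => ?_⟩
      have e1 : (II r).re - (II 0).re = a * Op := by
        have := congrArg Complex.re hw
        simpa using this
      have e2 : (II r).im - (II 0).im = b * Om := by
        have := congrArg Complex.im hw
        simpa using this
      rw [II_zero_im, sub_zero] at e2
      refine ⟨e2, ?_⟩
      have e3 : ((s r - s 0 - 3 * a : ℤ) : ℝ) * Op = 0 := by
        push_cast
        linear_combination 3 * e1 - hv r + hv 0
      have e4 : s r - s 0 - 3 * a = 0 := by
        rcases mul_eq_zero.1 e3 with h | h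
        · exact_mod_cast h
        · exact absurd h hOp.ne'
      obtain ⟨c, hc⟩ := hab
      obtain ⟨e, he⟩ := H.odd0
      exact ⟨-c - a - e - 1, by linarith⟩
    · exact ⟨0, fun h => absurd h hr⟩
  choose t ht using key
  exact ⟨s, t, Op, Om, hOp, hOm, H, hv, ht⟩

end Pool.Agent.Y682.XD
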