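import Pool.Agent.Y682.XD.Ana
import Pool.Agent.Y682.XD.Alg
import Pool.Agent.Y682.XD.Bas
import Pool.Agent.Y682.XD.EmbZ
import Pool.Agent.Y682.XD.SymO
import Pool.Agent.Y682.XD.Stm3
import Pool.Agent.Y682.XT.Fin
import Pool.Agent.Y405.XT.Det
import Pool.Agent.Y41.XT.L1
import Pool.Agent.Y125.XT.Res
import Pool.Agent.Y363.XT.Units
import Pool.Agent.Y884.XT.LK
import Pool.Agent.Y692.XT.Inert
import Pool.Agent.Y692.XT.Three
import Pool.Agent.Y687.Main

/-!
# The main theorem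
-/

set_option autoImplicit false

open Finset NumberField IsCyclotomicExtension.Rat H300.HW IsDedekindDomain

namespace Pool.Agent.Y682.XD

open scoped Classical

open Pool.Agent.Y687 (Symb Symb2)

open Pool.Agent.Y682.XT

open Pool.Agent.W97.MT (ap E14 II)

/-- transport of a prime ideal generated by a natural number -/
lemma prime_tr {K K' : Type} [Field K] [NumberField K] [Field K'] [NumberField K'] (e : K ≃+* K')
    (n : ℕ) (h : (Ideal.span {((n : ℕ) : 𝓞 K)}).IsPrime) : (Ideal.span {((n : ℕ) : 𝓞 K')}).IsPrime := by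
  have e' := RingOfIntegers.mapRingEquiv e
  have h1 : Ideal.span {((n : ℕ) : 𝓞 K')} = (Ideal.span {((n : ℕ) : 𝓞 K)}).map (e' : 𝓞 K →+* 𝓞 K') := by
    rw [Ideal.map_span, Set.image_singleton, map_natCast]
  rw [h1]
  exact Ideal.map_isPrime_of_equiv e'

/-- the hypotheses for the powers of three -/
theorem three_hyp (n : ℕ) (M : Type) [Field M] [NumberField M]
    [IsCyclotomicExtension {3 ^ (n + 1)} ℚ M] (K : IntermediateField ℚ M)
    (hodd : Odd (Module.finrank ℚ K)) :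
    (Ideal.span {((2 : ℕ) : 𝓞 K)}).IsPrime ∧ (Ideal.span {((7 : ℕ) : 𝓞 K)}).IsPrime ∧
      Odd (Nat.card (NCl K)) := by
  have hc2 : Nat.Coprime 2 (3 ^ (n + 1)) := Nat.Coprime.pow_right _ (by norm_num)
  have hc7 : Nat.Coprime 7 (3 ^ (n + 1)) := Nat.Coprime.pow_right _ (by norm_num)
  have ht2 : ((ZMod.unitOfCoprime 2 hc2 : (ZMod (3 ^ (n + 1)))ˣ) : ZMod (3 ^ (n + 1))) = (2 : ℕ) :=
    ZMod.coe_unitOfCoprime _ _
  have ht7 : ((ZMod.unitOfCoprime 7 hc7 : (ZMod (3 ^ (n + 1)))ˣ) : ZMod (3 ^ (n + 1))) = (7 : ℕ) :=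
    ZMod.coe_unitOfCoprime _ _
  refine ⟨Pool.Agent.Y682.XT.prime_of_gen Pool.Agent.Y692.XT.inert Nat.prime_two ht2
      (Pool.Agent.Y682.XT.gen_two hodd (by rw [ht2]; norm_num)),
    Pool.Agent.Y682.XT.prime_of_gen Pool.Agent.Y692.XT.inert (by norm_num) ht7
      (Pool.Agent.Y682.XT.gen_seven hodd (by rw [ht7]; norm_num)), ?_⟩
  exact Pool.Agent.Y682.XT.ncl_three Pool.Agent.Y692.XT.three Pool.Agent.Y405.XT.s_det
    Pool.Agent.Y41.XT.s_l1 Pool.Agent.Y125.XT.s_res Pool.Agent.Y363.XT.s_units n M K hodd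

section

variable {q : ℕ} [NeZero q] {L : Type} [Field L] [NumberField L] [IsCyclotomicExtension {q} ℚ L]
  {K : IntermediateField ℚ L}

/-- the hypotheses on the field -/
theorem hypK_of (hEV : S_APEV) {s t : ℚ → ℤ} {Op Om : ℝ} (hS : Sy s t Op Om) (hq : IsPrimePow q)
    (hco : q.Coprime 14) (hodd : Odd (Module.finrank ℚ K))
    (h2 : (Ideal.span {((2 : ℕ) : 𝓞 K)}).IsPrime) (h7 : (Ideal.span {((7 : ℕ) : 𝓞 K)}).IsPrime)
    (hN : Odd (Nat.card (NCl K))) : HypK s (fun l => ap E14 l) q L K := by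
  have hqo : Odd q := by
    have : q.Coprime 2 := Nat.Coprime.coprime_dvd_right (by norm_num) hco
    exact Nat.coprime_two_right.1 this
  have h1 : 1 < q := hq.one_lt
  have hre : IsRe q L K := re_of_odd hodd
  have hs : SameP q L K := same_pp hq
  obtain ⟨φ, hφ⟩ := exists_phi q L
  obtain ⟨R, hR⟩ := Pool.Agent.Y682.XT.exists_half q L K hqo h1 hre
  obtain ⟨U, hU⟩ := exists_cyc Pool.Agent.Y363.XT.s_units hqo h1 hre hφ hR
  obtain ⟨hnar, -⟩ := narrow Pool.Agent.Y405.XT.s_det Pool.Agent.Y41.XT.s_l1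
    Pool.Agent.Y125.XT.s_res hqo h1 hR hU hre hodd hs
  exact ⟨hS.H, hEV, hqo, h1, hco, hodd, hre, hs, ⟨R, hR, hnar.1 hN⟩,
    fun t ht => gen_of_prime (K := K) (L := L) Pool.Agent.Y692.XT.inert Nat.prime_two
      (by rw [ht]; norm_num) h2,
    fun t ht => gen_of_prime (K := K) (L := L) Pool.Agent.Y692.XT.inert (by norm_num : Nat.Prime 7)
      (by rw [ht]; norm_num) h7⟩

end

/-- the results of the independent parts -/
structure Parts : Prop where
  hecke : S_HECKE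
  apev : S_APEV
  basel : S_BASEL
  cond : S_COND
  cl : S_CL
  dec : S_DEC
  sup : S_SUP
  tr : S_TR
  rke : S_RKE
  qf : S_QF
  tw : S_TW
  zero : S_ZERO
  nz : S_NZ
  nclt : S_NCLT
  sq : S_SQ
  deg2 : S_DEG2
  ram : S_RAM

/-- the hypotheses on the elements of `S` -/
def HypS (q : ℕ) (K : Type) [Field K] [NumberField K] (S : Finset ℤ) : Prop :=
  ∀ d ∈ S, Squarefree d ∧ d % 4 = 1 ∧ ∀ p : ℕ, p.Prime → (p : ℤ) ∣ d →
    ¬ p ∣ 14 ∧ (p ∣ q ∨ (Ideal.span {((p : ℕ) : 𝓞 K)}).IsPrime)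

/-- the main theorem -/
theorem main (H : Parts) (q : ℕ) [NeZero q] (hq : IsPrimePow q) (hco : q.Coprime 14)
    (K : IntermediateField ℚ ℂ) [NumberField K]
    (hK : K ≤ IntermediateField.adjoin ℚ {z : ℂ | z ^ q = 1}) (hodd : Odd (Module.finrank ℚ K))
    (hcl : 3 ∣ q ∨ ((Ideal.span {((2 : ℕ) : 𝓞 K)}).IsPrime ∧
      (Ideal.span {((7 : ℕ) : 𝓞 K)}).IsPrime ∧ Odd (Nat.card (NCl K))))
    (S : Finset ℤ) (hS : HypS q K S) (F₀ F : IntermediateField ℚ ℂ) [NumberField F₀]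
    [NumberField F] (hF₀ : F₀ = mq S) (hF : F = F₀ ⊔ K) :
    ∃ G₀ G : ℂ → ℂ, Differentiable ℂ G₀ ∧ Differentiable ℂ G ∧
      (∀ z : ℂ, 3 / 2 < z.re → HasProd (fE (K := F₀) z) (G₀ z)) ∧
      (∀ z : ℂ, 3 / 2 < z.re → HasProd (fE (K := F) z) (G z)) ∧
      analyticOrderAt G 1 = analyticOrderAt G₀ 1 ∧ analyticOrderAt G₀ 1 ≠ ⊤ ∧
      RR F 1 = RR F₀ 1 ∧
      ((∀ d ∈ S, ∀ p : ℕ, p.Prime → (p : ℤ) ∣ d →
        p % 8 = 5 ∧ (p % 7 = 3 ∨ p % 7 = 5 ∨ p % 7 = 6)) → G₀ 1 ≠ 0 ∧ RR F₀ 1 = 0) := by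
  -- the primes
  set S0 : Finset ℕ := S.biUnion fun d => d.natAbs.primeFactors with hS0
  have hmemS0 : ∀ p : ℕ, p ∈ S0 ↔ ∃ d ∈ S, p.Prime ∧ (p : ℤ) ∣ d := by
    intro p
    rw [hS0, mem_biUnion]
    constructor
    · rintro ⟨d, hd, hp⟩
      exact ⟨d, hd, Nat.prime_of_mem_primeFactors hp,
        Int.natCast_dvd.2 (Nat.dvd_of_mem_primeFactors hp)⟩
    · rintro ⟨d, hd, hp, hpd⟩
      refine ⟨d, hd, Nat.mem_primeFactors.2 ⟨hp, Int.natCast_dvd.1 hpd, ?_⟩⟩
      intro h0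
      have h1 := (hS d hd).2.1
      rw [Int.natAbs_eq_zero.1 h0] at h1
      omega
  have hS0p : ∀ p ∈ S0, p.Prime := fun p hp => by
    obtain ⟨d, -, h1, -⟩ := (hmemS0 p).1 hp
    exact h1
  set P : Finset ℕ := S0.filter fun p => ¬ p ∣ q with hP
  set m : ℕ := ∏ p ∈ P, p with hm
  have hPp : ∀ p ∈ P, p.Prime := fun p hp => hS0p p (mem_filter.1 hp).1
  have hm0 : m ≠ 0 := prod_ne_zero_iff.2 fun p hp => (hPp p hp).ne_zero
  have hnz : NeZero (q * m) := ⟨Nat.mul_ne_zero (NeZero.ne q) hm0⟩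
  have hmsq : Squarefree m := Pool.Agent.Y687.squarefree_prod hPp
  have hmP : ∀ p : ℕ, p.Prime → p ∣ m → p ∈ P := fun p hp h =>
    Pool.Agent.Y687.dvd_prod_primes hPp hp h
  have hP14 : ∀ p ∈ P, ¬ p ∣ 14 ∧ ¬ p ∣ q ∧ (Ideal.span {((p : ℕ) : 𝓞 K)}).IsPrime := by
    intro p hp
    obtain ⟨h1, h2⟩ := mem_filter.1 hp
    obtain ⟨d, hd, h3, h4⟩ := (hmemS0 p).1 h1
    obtain ⟨h5, h6⟩ := (hS d hd).2.2 p h3 h4
    exact ⟨h5, h2, h6.resolve_left h2⟩
  have hmo : Odd m := by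
    rw [hm]
    refine Finset.prod_induction _ Odd (fun _ _ => Odd.mul) odd_one fun r hr => ?_
    refine (hPp r hr).odd_of_ne_two ?_
    rintro rfl
    exact (hP14 2 hr).1 (by norm_num)
  have hS0N : ∀ p ∈ S0, p ∣ q * m := by
    intro p hp
    by_cases h : p ∣ q
    · exact dvd_mul_of_dvd_left h _
    · exact dvd_mul_of_dvd_right (dvd_prod_of_mem _ (mem_filter.2 ⟨hp, h⟩)) _
  -- divisors
  have hdivN : ∀ T : Finset ℕ, T ⊆ S0 → (∏ p ∈ T, p) ∣ q * m := by
    intro T hT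
    exact Finset.prod_primes_dvd _ (fun p hp => (hS0p p (hT hp)).prime) fun p hp => hS0N p (hT hp)
  have hdS : ∀ d ∈ S, d ∣ ((q * m : ℕ) : ℤ) ∧ d % 4 = 1 ∧ Squarefree d := by
    intro d hd
    obtain ⟨h1, h2, -⟩ := hS d hd
    refine ⟨?_, h2, h1⟩
    rw [← Int.natAbs_dvd, Int.natCast_dvd_natCast]
    rw [← Nat.prod_primeFactors_of_squarefree (Int.squarefree_natAbs.2 h1)]
    exact hdivN _ (subset_biUnion_of_mem (fun d => d.natAbs.primeFactors) hd)
  -- the cyclotomic fields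
  let L₁ := CyclotomicField q ℚ
  let L := CyclotomicField (q * m) ℚ
  have hc1 : IsCyclotomicExtension {q} ℚ L₁ := CyclotomicField.isCyclotomicExtension q ℚ
  have hc : IsCyclotomicExtension {q * m} ℚ L := CyclotomicField.isCyclotomicExtension (q * m) ℚ
  obtain ⟨φ, ι, K₁, F₁, hK₁, hF₁, hF₁2⟩ := embz q (q * m) (dvd_mul_right q m) L₁ L K F₀ hK
    (S : Set ℤ) hdS hF₀
  -- the isomorphisms
  let eK : K ≃+* K₁ := ((IntermediateField.equivMap K₁ (φ.comp ι)).trans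
    (IntermediateField.equivOfEq hK₁)).symm.toRingEquiv
  have hrk : Module.finrank ℚ K₁ = Module.finrank ℚ K :=
    ((IntermediateField.equivMap K₁ (φ.comp ι)).trans
      (IntermediateField.equivOfEq hK₁)).toLinearEquiv.finrank_eq
  have hodd1 : Odd (Module.finrank ℚ K₁) := by rw [hrk]; exact hodd
  let e0 : F₁ ≃+* F₀ := ((IntermediateField.equivMap F₁ φ).trans
    (IntermediateField.equivOfEq hF₁)).toRingEquiv
  have hFmap : (F₁ ⊔ K₁.map ι : IntermediateField ℚ L).map φ = F := by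
    rw [IntermediateField.map_sup, IntermediateField.map_map, hF, hF₁]
    congr 1
  let eF : (F₁ ⊔ K₁.map ι : IntermediateField ℚ L) ≃+* F :=
    ((IntermediateField.equivMap _ φ).trans (IntermediateField.equivOfEq hFmap)).toRingEquiv
  -- the field `K₁`
  obtain ⟨h2, h7, hN⟩ : (Ideal.span {((2 : ℕ) : 𝓞 K₁)}).IsPrime ∧
      (Ideal.span {((7 : ℕ) : 𝓞 K₁)}).IsPrime ∧ Odd (Nat.card (NCl K₁)) := by
    rcases hcl with h3 | ⟨h2, h7, hN⟩
    · obtain ⟨n, hn⟩ : ∃ n, q = 3 ^ (n + 1) := by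
        obtain ⟨l, k, hl, hk, rfl⟩ := hq
        have hl' := hl.nat_prime
        have h4 : l = 3 := ((Nat.prime_dvd_prime_iff_eq Nat.prime_three hl').1
          (Nat.prime_three.dvd_of_dvd_pow h3)).symm
        subst h4
        exact ⟨k - 1, by rw [Nat.sub_add_cancel hk]⟩
      have key : ∀ (q' : ℕ) [NeZero q'] (M : Type) [Field M] [NumberField M]
          [IsCyclotomicExtension {q'} ℚ M] (n : ℕ), q' = 3 ^ (n + 1) →
          ∀ (K' : IntermediateField ℚ M), Odd (Module.finrank ℚ K') →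
          (Ideal.span {((2 : ℕ) : 𝓞 K')}).IsPrime ∧
          (Ideal.span {((7 : ℕ) : 𝓞 K')}).IsPrime ∧ Odd (Nat.card (NCl K')) := by
        intro q' _ M _ _ _ n hn K' hodd'
        subst hn
        exact three_hyp n M K' hodd'
      exact key q L₁ n hn K₁ hodd1
    · exact ⟨prime_tr eK 2 h2, prime_tr eK 7 h7, H.nclt K K₁ eK hN⟩
  obtain ⟨s, t, Op, Om, hSy⟩ := exists_sy
  have hypK : HypK s (fun l => ap E14 l) q L₁ K₁ :=
    hypK_of H.apev hSy hq hco hodd1 h2 h7 hN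
  have hmgen : ∀ p : ℕ, p.Prime → p ∣ m → ¬ p ∣ 14 * q ∧
      ∀ t : (ZMod q)ˣ, (t : ZMod q) = (p : ZMod q) →
        ∀ x : GG q L₁ K₁, x ∈ Subgroup.zpowers (mkG q L₁ K₁ t) := by
    intro p hp hpm
    obtain ⟨h3, h4, h5⟩ := hP14 p (hmP p hp hpm)
    refine ⟨?_, fun t ht => ?_⟩
    · intro h6
      rcases (hp.dvd_mul).1 h6 with h6 | h6
      · exact h3 h6
      · exact h4 h6
    · exact gen_of_prime (K := K₁) (L := L₁) Pool.Agent.Y692.XT.inert hp ht (prime_tr eK p h5)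
  obtain ⟨G₀, Pr, hG₀, hPr, hPr1, htop, hE0, hE, hbase⟩ := ana Pool.Agent.Y884.XT.s_lk H.hecke
    H.cond H.cl H.dec H.nz hSy hypK hmo hmsq hmgen ι F₁ hF₁2
  -- the ranks
  have hreal : ∀ w : InfinitePlace K₁, w.IsReal := by
    obtain ⟨φ', -⟩ := exists_phi q L₁
    exact real_place (φ := φ') hypK.hre
  have hOne : ∀ d ∈ S, Odd d ∧ OneP K₁ d := by
    intro d hd
    obtain ⟨h3, h4, h5⟩ := hS d hd
    refine ⟨Int.odd_iff.2 (by omega), fun p hp hpd v w hv hw => ?_⟩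
    obtain ⟨-, h6⟩ := h5 p hp hpd
    rcases h6 with h6 | h6
    · have key : ∀ (q' : ℕ) [NeZero q'] (M : Type) [Field M] [NumberField M]
          [IsCyclotomicExtension {q'} ℚ M], IsPrimePow q' → p ∣ q' →
          ∀ (K' : IntermediateField ℚ M) (v w : HeightOneSpectrum (𝓞 K')),
          ((p : ℕ) : 𝓞 K') ∈ v.asIdeal → ((p : ℕ) : 𝓞 K') ∈ w.asIdeal → v = w := by
        intro q' hz M _ _ _ hq' hpq' K' v w hv hw
        obtain ⟨l, k, hl, hk, rfl⟩ := hq'
        have hl' := hl.nat_prime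
        have h4 : p = l := (Nat.prime_dvd_prime_iff_eq hp hl').1 (hp.dvd_of_dvd_pow hpq')
        subst h4
        obtain ⟨j, rfl⟩ : ∃ j, k = j + 1 := ⟨k - 1, by omega⟩
        exact H.ram p j hl' M K' v w hv hw
      exact key q L₁ hq h6 K₁ v w hv hw
    · obtain ⟨u, -, hu⟩ := place_unique hp (prime_tr eK p h6)
      rw [(hu v).1 hv, (hu w).1 hw]
  have hr1 := (rank_stable H.qf H.deg2 H.sup H.tw H.rke K K₁ eK hreal hN hodd1 hodd
    (by exact_mod_cast h2) (by exact_mod_cast h7) S hOne).2 F₀ F hF₀ hF 1 odd_one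
    (fun p hp h1 => by
      exfalso
      have h3 : (p : ℤ) ≤ 1 := Int.le_of_dvd one_pos h1
      have := hp.two_le
      omega)
  refine ⟨G₀, fun z => G₀ z * Pr z, hG₀, hG₀.mul hPr, fun z hz => H.tr F₁ F₀ e0 z _ (hE0 z hz),
    fun z hz => H.tr _ F eF z _ (hE z hz), ?_, htop, hr1, ?_⟩
  · have h3 : analyticOrderAt (fun z => G₀ z * Pr z) 1 =
        analyticOrderAt G₀ 1 + analyticOrderAt Pr 1 :=
      analyticOrderAt_mul (hG₀.analyticAt 1) (hPr.analyticAt 1)
    have h4 : analyticOrderAt Pr 1 = 0 := analyticOrderAt_eq_zero.2 (Or.inr hPr1)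
    rw [h3, h4, add_zero]
  · intro hin
    have hInP : ∀ d ∈ S, InP d := by
      intro d hd
      refine ⟨?_, fun p hp hpd => hin d hd p hp hpd⟩
      obtain ⟨h3, h4, -⟩ := hS d hd
      -- the absolute value is 1 modulo 4
      have h5 : d.natAbs % 4 = 1 := by
        rw [← Nat.prod_primeFactors_of_squarefree (Int.squarefree_natAbs.2 h3)]
        refine Finset.prod_induction _ (fun n => n % 4 = 1) ?_ (by norm_num) ?_
        · intro a b ha hb
          rw [Nat.mul_mod, ha, hb]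
        · intro p hp
          have h6 := hin d hd p (Nat.prime_of_mem_primeFactors hp)
            (Int.natCast_dvd.2 (Nat.dvd_of_mem_primeFactors hp))
          omega
      omega
    refine ⟨hbase ?_, ?_⟩
    · intro χ hχ
      refine base_ne H.basel hSy F₁ S0 ?_ (hdivN S0 (Finset.Subset.refl _)) ?_ χ hχ
      · intro p hp
        obtain ⟨d, hd, h3, h4⟩ := (hmemS0 p).1 hp
        exact ⟨h3, hin d hd p h3 h4⟩
      · -- the field
        intro x hx
        set ZL : Set L := {z : L | ∃ T ⊆ S0, z ^ 2 = ((Pool.Agent.Y18.BSD.disc T : ℤ) : L)} with hZL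
        have h3 : F₀ ≤ (IntermediateField.adjoin ℚ ZL).map φ := by
          rw [hF₀]
          unfold mq
          rw [IntermediateField.adjoin_le_iff]
          rintro z ⟨d, hd, hz⟩
          obtain ⟨h4, h5, h6⟩ := hdS d hd
          obtain ⟨g, hg⟩ := sqrt_memZ (q * m) L d h4 h5 h6
          have hd0 := (hInP d hd).1
          have hdisc : Pool.Agent.Y18.BSD.disc d.natAbs.primeFactors = d := by
            unfold Pool.Agent.Y18.BSD.disc
            have h7 : ∀ p ∈ d.natAbs.primeFactors, (-1 : ℤ) ^ ((p - 1) / 2) * (p : ℤ) = (p : ℤ) := by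
              intro p hp
              have h8 := hin d hd p (Nat.prime_of_mem_primeFactors hp)
                (Int.natCast_dvd.2 (Nat.dvd_of_mem_primeFactors hp))
              have h9 : Even ((p - 1) / 2) := by
                rw [Nat.even_iff]
                omega
              rw [h9.neg_one_pow, one_mul]
            rw [prod_congr rfl h7, ← Nat.cast_prod,
              Nat.prod_primeFactors_of_squarefree (Int.squarefree_natAbs.2 h6)]
            omega
          have hgZ : g ∈ ZL := ⟨d.natAbs.primeFactors,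
            subset_biUnion_of_mem (fun d => d.natAbs.primeFactors) hd, by rw [hdisc, hg]⟩
          have h10 : (φ g) ^ 2 = (d : ℂ) := by rw [← map_pow, hg, map_intCast]
          rcases sq_eq_sq_iff_eq_or_eq_neg.1 (hz.trans h10.symm) with h | h
          · exact ⟨g, IntermediateField.subset_adjoin ℚ _ hgZ, h.symm⟩
          · exact ⟨-g, (IntermediateField.adjoin ℚ ZL).neg_mem (IntermediateField.subset_adjoin ℚ _ hgZ), by
              show φ (-g) = z
              rw [map_neg, h]⟩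
        have h4 : φ x ∈ F₀ := by
          rw [← hF₁]
          exact ⟨x, hx, rfl⟩
        obtain ⟨y, hy, hyx⟩ := h3 h4
        have h5 : y = x := φ.toRingHom.injective hyx
        rw [← h5]
        exact hy
    · exact (rank_zero H.qf H.deg2 H.rke H.zero H.sq S hInP).2 F₀ hF₀ 1 ⟨one_pos, fun p hp h1 => by
        exfalso
        have h3 : (p : ℤ) ≤ 1 := Int.le_of_dvd one_pos h1
        have := hp.two_le
        omega⟩

end Pool.Agent.Y682.XD
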