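import Mathlib
import Pool.Agent.Y682.XT.Stm
import Pool.Agent.Y682.XT.Hsm
import Pool.Agent.Y687.Comb2
import Pool.Agent.Y682.KG
import Pool.Agent.Y682.NCl
import Pool.Agent.Y655.XT.Shavc
import Pool.Agent.W97.MT.Lat

/-!
# `X_0(14)` over the compositum of a multiquadratic field and a field of odd degree: statements of
the independent parts
-/

set_option autoImplicit false

open NumberField IsDedekindDomain Finset H300.HW IsCyclotomicExtension.Rat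

namespace Pool.Agent.Y682.XD

open Pool.Agent.W97.MT (E14 ap II)

open Pool.Agent.Y687 (Symb)

open Pool.Agent.Y682.XT (PU IsH fE)

open Pool.Agent.TH841.NF.D (rk)

/-! ### The modular symbol -/

open scoped Classical in
/-- HECKE: the half sums of an even character at the level `M p` -/
def S_HECKE : Prop := ∀ (s : ℚ → ℤ) (a : ℕ → ℤ), Symb s a → ∀ (M p : ℕ) [NeZero M] [NeZero (M * p)],
  Odd M → 1 < M → Odd p → p.Prime → ¬ p ∣ 14 * M → ∀ (k : Type) [Field k] (ψ : (ZMod M)ˣ →* k),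
  (∀ x, ψ (-x) = ψ x) → ∀ t : (ZMod M)ˣ, (t : ZMod M) = (p : ZMod M) →
  ∑ u ∈ PU (M * p), ψ (ZMod.unitsMap (dvd_mul_right M p) u) *
      ((s (((u : ZMod (M * p)).val : ℚ) / ((M * p : ℕ) : ℚ)) : ℤ) : k) =
    ((a p : k) - ψ t - ψ t⁻¹) *
      ∑ u ∈ PU M, ψ u * ((s (((u : ZMod M).val : ℚ) / (M : ℚ)) : ℤ) : k)

/-- APEV: `a_p` is even for all the primes `p ∤ 14` -/
def S_APEV : Prop := ∀ p : ℕ, p.Prime → ¬ p ∣ 14 → (2 : ℤ) ∣ ap E14 p

/-- BASEL: the central values of the twists by the primes which are inert in `ℚ(√-7)` and `ℚ(√2)` -/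
def S_BASEL : Prop := ∀ (s : ℚ → ℤ) (Op : ℝ), 0 < Op → Symb s (fun q => ap E14 q) →
  (∀ r : ℚ, (3 : ℝ) * (II r).re = s r * Op) → ∀ T : Finset ℕ,
  (∀ q ∈ T, q.Prime ∧ q % 8 = 5 ∧ (q % 7 = 3 ∨ q % 7 = 5 ∨ q % 7 = 6)) →
  ∀ (f : ℕ) [NeZero f], f = ∏ q ∈ T, q → ∀ ρ : DirichletCharacter ℂ f,
  (∀ u : (ZMod f)ˣ, ρ (u : ZMod f) = (jacobiSym ((u : ZMod f).val : ℤ) f : ℂ)) →
  ∑ u : (ZMod f)ˣ, ρ (u : ZMod f) * II (((u : ZMod f).val : ℚ) / f) ≠ 0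

/-! ### Dirichlet characters -/

/-- COND: the conductor of the product of a character of level `q` and a quadratic character -/
def S_COND : Prop := ∀ (q m : ℕ) [NeZero q] [NeZero (q * m)], Odd q → Odd m → Squarefree m →
  q.Coprime m → ∀ (χ : DirichletCharacter ℂ (q * m)) (h : ℕ), Odd h → χ ^ (2 * h) = 1 →
  ∀ ψ : DirichletCharacter ℂ q, χ ^ (h + 1) = DirichletCharacter.changeLevel (dvd_mul_right q m) ψ →
  (∀ p : ℕ, p.Prime → p ∣ q → p ∣ ψ.conductor) → ∃ d : ℕ, d ∣ m ∧ χ.conductor = ψ.conductor * d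

/-- CL: the characters of a subfield of a smaller cyclotomic field -/
def S_CL : Prop := ∀ (q N : ℕ) [NeZero q] [NeZero N] (hqN : q ∣ N) (L₁ L : Type) [Field L₁]
  [NumberField L₁] [IsCyclotomicExtension {q} ℚ L₁] [Field L] [NumberField L]
  [IsCyclotomicExtension {N} ℚ L] (ι : L₁ →ₐ[ℚ] L) (K : IntermediateField ℚ L₁)
  (χ : DirichletCharacter ℂ N), χ ∈ YY N L (K.map ι) ↔
    ∃ ψ ∈ YY q L₁ K, χ = DirichletCharacter.changeLevel hqN ψ

/-- DEC: the characters of the compositum of a field of odd degree and a multiquadratic field -/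
def S_DEC : Prop := ∀ (N : ℕ) [NeZero N] (L : Type) [Field L] [NumberField L]
  [IsCyclotomicExtension {N} ℚ L] (F₀ K : IntermediateField ℚ L),
  (∀ σ : Gal(L/ℚ), ∀ x ∈ F₀, σ (σ x) = x) → Odd (Module.finrank ℚ K) →
  ∀ χ ∈ YY N L (F₀ ⊔ K), χ ^ (2 * Module.finrank ℚ K) = 1 ∧
    χ ^ (Module.finrank ℚ K) ∈ YY N L F₀ ∧ χ ^ (Module.finrank ℚ K + 1) ∈ YY N L K

/-! ### Fields -/

/-- SUP: the compositum of a multiquadratic field and a field of odd degree inside the complex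
numbers, and the degrees -/
def S_SUP : Prop := ∀ (F₀ K : IntermediateField ℚ ℂ) [FiniteDimensional ℚ F₀]
  [FiniteDimensional ℚ K] (n : ℕ), Module.finrank ℚ F₀ = 2 ^ n → Odd (Module.finrank ℚ K) →
  ∀ z : ℂ, z ∉ F₀ → (∃ d : ℤ, z ^ 2 = (d : ℂ)) →
    z ∉ F₀ ⊔ K ∧ Module.finrank ℚ (F₀ ⊔ IntermediateField.adjoin ℚ {z} : IntermediateField ℚ ℂ) =
      2 ^ (n + 1)

/-- EMB: a multiquadratic field and a field of odd conductor inside the complex numbers come from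
cyclotomic fields -/
def S_EMB : Prop := ∀ (q N : ℕ) [NeZero q] [NeZero N], q ∣ N → ∀ (L₁ L : Type) [Field L₁]
  [NumberField L₁] [IsCyclotomicExtension {q} ℚ L₁] [Field L] [NumberField L]
  [IsCyclotomicExtension {N} ℚ L] (K F₀ : IntermediateField ℚ ℂ),
  K ≤ IntermediateField.adjoin ℚ {z : ℂ | z ^ q = 1} → ∀ S : Set ℕ,
  (∀ d ∈ S, d ∣ N ∧ d % 4 = 1 ∧ Squarefree d) →
  F₀ = IntermediateField.adjoin ℚ {z : ℂ | ∃ d ∈ S, z ^ 2 = (d : ℂ)} →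
  ∃ (φ : L →ₐ[ℚ] ℂ) (ι : L₁ →ₐ[ℚ] L) (K₁ : IntermediateField ℚ L₁) (F₁ : IntermediateField ℚ L),
    K₁.map (φ.comp ι) = K ∧ F₁.map φ = F₀ ∧ (∀ σ : Gal(L/ℚ), ∀ x ∈ F₁, σ (σ x) = x) ∧
    ∀ x ∈ F₁, (galEquivZMod N L).symm (-1) x = x

/-- TR: transport of the Euler product -/
def S_TR : Prop := ∀ (K K' : Type) [Field K] [NumberField K] [Field K'] [NumberField K']
  (_ : K ≃+* K') (s z : ℂ), HasProd (fE (K := K) s) z → HasProd (fE (K := K') s) z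

/-! ### The ranks -/

/-- RKE: transport of the rank -/
def S_RKE : Prop := ∀ (K K' : Type) [Field K] [NumberField K] [Field K'] [NumberField K']
  (_ : K ≃+* K') (A B : ℤ), B ≠ 0 → A ^ 2 - 4 * B ≠ 0 → rk (gc A B K) = rk (gc A B K')

/-- QF: the rank in a quadratic extension -/
def S_QF : Prop := ∀ (K L : Type) [Field K] [NumberField K] [Field L] [NumberField L] [Algebra K L]
  (A B d : ℤ) (r : L), B ≠ 0 → A ^ 2 - 4 * B ≠ 0 → d ≠ 0 → r ^ 2 = (d : L) →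
  Module.finrank K L = 2 → (∀ x : K, algebraMap K L x ≠ r) →
  rk (gc A B L) = rk (gc A B K) + rk (gc (A * d) (B * d ^ 2) K)

/-- TW: the ranks of the twists over a field of odd degree -/
def S_TW : Prop := ∀ (K : Type) [Field K] [NumberField K], (∀ w : InfinitePlace K, w.IsReal) →
  Odd (Nat.card (NCl K)) → Odd (Module.finrank ℚ K) → (Ideal.span {(2 : 𝓞 K)}).IsPrime →
  (Ideal.span {(7 : 𝓞 K)}).IsPrime → ∀ d : ℤ, Odd d →
  (∀ p : ℕ, p.Prime → (p : ℤ) ∣ d → ∀ v w : HeightOneSpectrum (𝓞 K), ((p : ℕ) : 𝓞 K) ∈ v.asIdeal →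
    ((p : ℕ) : 𝓞 K) ∈ w.asIdeal → v = w) →
  rk (gc (13 * d) (128 * d ^ 2) K) = rk (gc (13 * d) (128 * d ^ 2) ℚ)

/-- ZERO: the twists by the primes which are inert in `ℚ(√-7)` and `ℚ(√2)` -/
def S_ZERO : Prop := ∀ T : Finset ℕ,
  (∀ q ∈ T, q.Prime ∧ q % 8 = 5 ∧ (q % 7 = 3 ∨ q % 7 = 5 ∨ q % 7 = 6)) →
  rk (gc (13 * ((∏ q ∈ T, q : ℕ) : ℤ)) (128 * ((∏ q ∈ T, q : ℕ) : ℤ) ^ 2) ℚ) = 0

end Pool.Agent.Y682.XD
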