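import Pool.Agent.Y682.XD.Stm

/-!
# Further statements
-/

set_option autoImplicit false

open NumberField IsDedekindDomain

namespace Pool.Agent.Y682.XD

open Pool.Agent.Y682.XT (fE)

open Pool.Agent.TH841.NF.D (rk)

/-- NZ: the Euler product is not zero far to the right -/
def S_NZ : Prop := ∀ (K : Type) [Field K] [NumberField K],
  ∃ z : ℂ, 3 / 2 < z.re ∧ ∀ c : ℂ, HasProd (fE (K := K) z) c → c ≠ 0

/-- NCLT: transport of the narrow class number -/
def S_NCLT : Prop := ∀ (K K' : Type) [Field K] [NumberField K] [Field K'] [NumberField K']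
  (_ : K ≃+* K'), Odd (Nat.card (NCl K)) → Odd (Nat.card (NCl K'))

/-- SQ: a twist by a square -/
def S_SQ : Prop := ∀ (K : Type) [Field K] [NumberField K] (A B g : ℤ), B ≠ 0 → A ^ 2 - 4 * B ≠ 0 →
  g ≠ 0 → rk (gc (A * g ^ 2) (B * g ^ 4) K) = rk (gc A B K)

/-- DEG2: adjoining a square root to a number field inside the complex numbers -/
def S_DEG2 : Prop := ∀ (F F' : IntermediateField ℚ ℂ) [NumberField F] [NumberField F'] (z : ℂ) (d : ℤ),
  z ∉ F → z ^ 2 = (d : ℂ) → ∀ h : F ≤ F', F' = F ⊔ IntermediateField.adjoin ℚ {z} →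
  @Module.finrank F F' _ _ (IntermediateField.inclusion h).toRingHom.toAlgebra.toModule = 2

end Pool.Agent.Y682.XD
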