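import Pool.Agent.Y682.XD.Nvc
import Pool.Agent.Y682.XD.Stm2

/-!
# The `L`-functions
-/

set_option autoImplicit false

open Finset NumberField IsCyclotomicExtension.Rat H300.HW

namespace Pool.Agent.Y682.XD

open scoped Classical

open Pool.Agent.Y687 (Symb Symb2)

open Pool.Agent.Y682.XT

open Pool.Agent.W97.MT (ap E14 II)

section

variable {q : ℕ} [NeZero q] {L₁ : Type} [Field L₁] [NumberField L₁] [IsCyclotomicExtension {q} ℚ L₁]
  {K₁ : IntermediateField ℚ L₁} {m : ℕ} [NeZero (q * m)] {L : Type} [Field L] [NumberField L]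
  [IsCyclotomicExtension {q * m} ℚ L]

theorem ana (hlk : S_LK) (hH : S_HECKE) (hCond : S_COND) (hCL : S_CL) (hDEC : S_DEC) (hNZ : S_NZ)
    {s t : ℚ → ℤ} {Op Om : ℝ} (hS : Sy s t Op Om)
    (hK : HypK s (fun l => ap E14 l) q L₁ K₁) (hmo : Odd m) (hmsq : Squarefree m)
    (hm : ∀ p : ℕ, p.Prime → p ∣ m → ¬ p ∣ 14 * q ∧ ∀ t : (ZMod q)ˣ, (t : ZMod q) = (p : ZMod q) →
      ∀ x : GG q L₁ K₁, x ∈ Subgroup.zpowers (mkG q L₁ K₁ t)) (ι : L₁ →ₐ[ℚ] L)
    (F₁ : IntermediateField ℚ L) (hF : ∀ σ : Gal(L/ℚ), ∀ x ∈ F₁, σ (σ x) = x) :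
    ∃ G₀ P : ℂ → ℂ, Differentiable ℂ G₀ ∧ Differentiable ℂ P ∧ P 1 ≠ 0 ∧
      analyticOrderAt G₀ 1 ≠ ⊤ ∧
      (∀ z : ℂ, 3 / 2 < z.re → HasProd (fE (K := F₁) z) (G₀ z)) ∧
      (∀ z : ℂ, 3 / 2 < z.re →
        HasProd (fE (K := (F₁ ⊔ K₁.map ι : IntermediateField ℚ L)) z) (G₀ z * P z)) ∧
      ((∀ χ ∈ YY (q * m) L F₁, haveI : NeZero χ.conductor := ⟨χ.conductor_ne_zero⟩
        ∑ u : (ZMod χ.conductor)ˣ, (χ.primitiveCharacter)⁻¹ (u : ZMod χ.conductor) *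
          II (((u : ZMod χ.conductor).val : ℚ) / χ.conductor) ≠ 0) → G₀ 1 ≠ 0) := by
  have hco : (q * m).Coprime 14 := by
    refine Nat.Coprime.mul_left hK.hco ?_
    refine Nat.coprime_of_dvd ?_
    intro p hp hpm hp14
    exact (hm p hp hpm).1 (dvd_mul_of_dvd_left hp14 _)
  obtain ⟨G, hG⟩ := exists_GG hco
  set F := (F₁ ⊔ K₁.map ι : IntermediateField ℚ L) with hFdef
  have hfD : Fintype (DirichletCharacter ℂ (q * m)) := Fintype.ofFinite _
  set A : Finset (DirichletCharacter ℂ (q * m)) := univ.filter (fun χ => χ ∈ YY (q * m) L F) with hA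
  set B : Finset (DirichletCharacter ℂ (q * m)) := univ.filter (fun χ => χ ∈ YY (q * m) L F₁) with hB
  have hBA : B ⊆ A := by
    intro χ hχ
    rw [hB, mem_filter] at hχ
    rw [hA, mem_filter]
    refine ⟨mem_univ _, ?_⟩
    have h1 := hχ.2
    rw [mem_YY] at h1 ⊢
    exact fun σ hσ => h1 σ (IntermediateField.fixingSubgroup_antitone le_sup_left hσ)
  have hprod : ∀ (F' : IntermediateField ℚ L) (z : ℂ), ∏ᶠ χ : YY (q * m) L F', G χ z =
      ∏ χ ∈ univ.filter (fun χ => χ ∈ YY (q * m) L F'), G χ z := by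
    intro F' z
    have hfY : Fintype (YY (q * m) L F') := Fintype.ofFinite _
    rw [finprod_eq_prod_of_fintype]
    refine prod_bij (fun χ _ => χ.1) ?_ ?_ ?_ ?_
    · intro χ _
      exact mem_filter.2 ⟨mem_univ _, χ.2⟩
    · intro χ _ χ' _ h
      exact Subtype.ext h
    · intro χ hχ
      exact ⟨⟨χ, (mem_filter.1 hχ).2⟩, mem_univ _, rfl⟩
    · intro χ _; rfl
  have hP : ∀ z : ℂ, (∏ χ ∈ B, G χ z) * (∏ χ ∈ A \ B, G χ z) = ∏ χ ∈ A, G χ z := by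
    intro z
    rw [mul_comm]
    exact prod_sdiff hBA
  have hE0 : ∀ z : ℂ, 3 / 2 < z.re → HasProd (fE (K := F₁) z) (∏ χ ∈ B, G χ z) := by
    intro z hz
    have h2 := hlk (q * m) hco L F₁ G z hz (fun χ _ => (hG χ).2.1 z hz)
    rwa [hprod F₁ z] at h2
  have hE : ∀ z : ℂ, 3 / 2 < z.re → HasProd (fE (K := F) z) (∏ χ ∈ A, G χ z) := by
    intro z hz
    have h2 := hlk (q * m) hco L F G z hz (fun χ _ => (hG χ).2.1 z hz)
    rwa [hprod F z] at h2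
  have hd0 : Differentiable ℂ (fun z => ∏ χ ∈ B, G χ z) :=
    Differentiable.fun_finsetProd fun χ _ => (hG χ).1
  refine ⟨fun z => ∏ χ ∈ B, G χ z, fun z => ∏ χ ∈ A \ B, G χ z, hd0,
    Differentiable.fun_finsetProd fun χ _ => (hG χ).1, ?_, ?_, hE0, ?_, ?_⟩
  · -- nonvanishing
    show ∏ χ ∈ A \ B, G χ 1 ≠ 0
    refine prod_ne_zero_iff.2 fun χ hχ => ?_
    rw [mem_sdiff, hA, hB, mem_filter, mem_filter] at hχ
    obtain ⟨⟨-, hχA⟩, hχB'⟩ := hχ
    have hχB : χ ∉ YY (q * m) L F₁ := fun h => hχB' ⟨mem_univ _, h⟩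
    have hrk : Module.finrank ℚ (K₁.map ι) = Module.finrank ℚ K₁ :=
      (IntermediateField.equivMap K₁ ι).toLinearEquiv.finrank_eq.symm
    obtain ⟨h1, h2, h3⟩ := hDEC (q * m) L F₁ (K₁.map ι) hF (by rw [hrk]; exact hK.hodd) χ hχA
    rw [hrk] at h1 h2 h3
    set h := Module.finrank ℚ K₁ with hh
    obtain ⟨ψ, hψY, hψ⟩ := (hCL q (q * m) (dvd_mul_right q m) L₁ L ι K₁ (χ ^ (h + 1))).1 h3
    have hψ1 : ψ ≠ 1 := by
      rintro rfl
      rw [map_one] at hψ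
      apply hχB
      have h4 : χ = (χ ^ h)⁻¹ := by
        rw [eq_inv_iff_mul_eq_one, ← pow_succ', hψ]
      rw [h4]
      exact (YY (q * m) L F₁).inv_mem h2
    exact nv_char hH hCond hS hK hmo hmsq hm hK.hodd h1 hψY hψ1 hψ (hG χ).2.2
  · -- finite order
    intro htop
    obtain ⟨z, hz, hne⟩ := hNZ F₁
    have h1 := hne _ (hE0 z hz)
    apply h1
    rw [analyticOrderAt_eq_top] at htop
    have han : AnalyticOnNhd ℂ (fun z => ∏ χ ∈ B, G χ z) Set.univ := fun z _ => hd0.analyticAt z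
    have h2 := han.eqOn_zero_of_preconnected_of_eventuallyEq_zero isPreconnected_univ
      (Set.mem_univ (1 : ℂ)) htop
    exact h2 (Set.mem_univ z)
  · intro z hz
    show HasProd _ ((∏ χ ∈ B, G χ z) * (∏ χ ∈ A \ B, G χ z))
    rw [hP]
    exact hE z hz
  · intro hne
    show ∏ χ ∈ B, G χ 1 ≠ 0
    refine prod_ne_zero_iff.2 fun χ hχ => ?_
    rw [hB, mem_filter] at hχ
    have h1 := hne χ hχ.2
    intro h0
    apply h1
    have h2 := (hG χ).2.2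
    rw [h0, mul_zero] at h2
    exact h2.symm

end

end Pool.Agent.Y682.XD
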