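import Pool.Agent.Y682.XD.Stm
import Pool.Agent.Y682.XT.Val1

/-!
# Nonvanishing of the twisted sums of the symbols
-/

set_option autoImplicit false

open Finset NumberField IsCyclotomicExtension.Rat H300.HW

namespace Pool.Agent.Y682.XD

open scoped Classical

open Pool.Agent.Y687 (Symb Symb2)

open Pool.Agent.Y682.XT

section

variable {k : Type} [Field k]

/-- the twisted sum at the level `M` is not zero -/
def NZ (s : ℚ → ℤ) {f : ℕ} (ψ : (ZMod f)ˣ →* k) (M : ℕ) : Prop :=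
  ∀ (_ : NeZero M) (h : f ∣ M),
    ∑ u ∈ PU M, ψ (ZMod.unitsMap h u) * ((s (((u : ZMod M).val : ℚ) / (M : ℚ)) : ℤ) : k) ≠ 0

lemma NZ_step [CharP k 2] (hH : S_HECKE) {s : ℚ → ℤ} {a : ℕ → ℤ} (H : Symb s a) {f : ℕ} [NeZero f]
    (h1 : 1 < f)
    {ψ : (ZMod f)ˣ →* k} (hψ : ∀ x, ψ (-x) = ψ x) {M p : ℕ} (hM : Odd M) (hM0 : M ≠ 0)
    (hfM : f ∣ M) (hp : p.Prime) (hpo : Odd p) (hpM : ¬ p ∣ 14 * M) (ha : (2 : ℤ) ∣ a p)
    {t : (ZMod f)ˣ} (ht : (t : ZMod f) = (p : ZMod f)) (hne : ψ t ≠ 1) (hN : NZ s ψ M) :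
    NZ s ψ (M * p) := by
  intro _ h
  have hz : NeZero M := ⟨hM0⟩
  have h1M : 1 < M := lt_of_lt_of_le h1 (Nat.le_of_dvd (Nat.pos_of_ne_zero hM0) hfM)
  have hpc : p.Coprime M := by
    rw [Nat.Prime.coprime_iff_not_dvd hp]
    intro h2
    exact hpM (dvd_mul_of_dvd_right h2 _)
  obtain ⟨t', ht'⟩ : ∃ t' : (ZMod M)ˣ, (t' : ZMod M) = (p : ZMod M) :=
    ⟨ZMod.unitOfCoprime p hpc, ZMod.coe_unitOfCoprime p hpc⟩
  have htt : ZMod.unitsMap hfM t' = t := by
    apply Units.ext
    rw [ZMod.unitsMap_val, ht', ht, ZMod.cast_natCast hfM]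
  have hψ' : ∀ x, (ψ.comp (ZMod.unitsMap hfM)) (-x) = (ψ.comp (ZMod.unitsMap hfM)) x := by
    intro x
    rw [MonoidHom.comp_apply, MonoidHom.comp_apply, unitsMap_neg, hψ]
  have h2 := hH s a H M p hM h1M hpo hp hpM k (ψ.comp (ZMod.unitsMap hfM)) hψ' t' ht'
  have h3 : ∀ u : (ZMod (M * p))ˣ, (ψ.comp (ZMod.unitsMap hfM)) (ZMod.unitsMap (dvd_mul_right M p) u) =
      ψ (ZMod.unitsMap h u) := by
    intro u
    rw [MonoidHom.comp_apply]
    congr 1
    rw [← MonoidHom.comp_apply, ZMod.unitsMap_comp]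
  simp_rw [h3] at h2
  rw [h2]
  refine mul_ne_zero ?_ (hN hz hfM)
  rw [MonoidHom.comp_apply, MonoidHom.comp_apply, map_inv, htt]
  obtain ⟨c, hc⟩ := ha
  have hap : ((a p : ℤ) : k) = 0 := by
    rw [hc]
    push_cast
    rw [CharTwo.two_eq_zero, zero_mul]
  rw [hap, zero_sub]
  intro h4
  have h5 : ψ t * ψ t⁻¹ = 1 := by rw [← map_mul, mul_inv_cancel, map_one]
  have h6 : (ψ t - 1) ^ 2 = 0 := by
    have h7 : (2 : k) = 0 := CharTwo.two_eq_zero
    linear_combination (-ψ t) * h4 - h5 - ψ t * h7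
  exact hne (sub_eq_zero.1 (pow_eq_zero_iff (two_ne_zero)|>.1 h6))

lemma NZ_prod [CharP k 2] (hH : S_HECKE) {s : ℚ → ℤ} {a : ℕ → ℤ} (H : Symb s a) {f : ℕ} [NeZero f]
    (h1 : 1 < f) (hfo : Odd f)
    {ψ : (ZMod f)ˣ →* k} (hψ : ∀ x, ψ (-x) = ψ x) (ha : ∀ p : ℕ, p.Prime → ¬ p ∣ 14 → (2 : ℤ) ∣ a p)
    (hN : NZ s ψ f) (T : Finset ℕ) (hT : ∀ p ∈ T, p.Prime ∧ ¬ p ∣ 14 * f ∧
      ∀ t : (ZMod f)ˣ, (t : ZMod f) = (p : ZMod f) → ψ t ≠ 1) : NZ s ψ (f * ∏ p ∈ T, p) := by
  induction T using Finset.induction_on with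
  | empty => rwa [prod_empty, mul_one]
  | insert p T hp ih =>
    have hT' : ∀ p ∈ T, p.Prime ∧ ¬ p ∣ 14 * f ∧
      ∀ t : (ZMod f)ˣ, (t : ZMod f) = (p : ZMod f) → ψ t ≠ 1 :=
      fun r hr => hT r (mem_insert_of_mem hr)
    obtain ⟨hpp, hpf, hpt⟩ := hT p (mem_insert_self _ _)
    have ih' := ih hT'
    have hodd : ∀ r : ℕ, r.Prime → ¬ r ∣ 14 * f → Odd r := by
      intro r hr h2
      refine hr.odd_of_ne_two ?_
      rintro rfl
      exact h2 (dvd_mul_of_dvd_left (by norm_num) _)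
    have hpo := hodd p hpp hpf
    have hTo : Odd (∏ r ∈ T, r) := Finset.prod_induction _ Odd (fun _ _ => Odd.mul) odd_one
      (fun r hr => hodd r (hT' r hr).1 (hT' r hr).2.1)
    have hT0 : ∏ r ∈ T, r ≠ 0 := prod_ne_zero_iff.2 fun r hr => (hT' r hr).1.ne_zero
    have hpT : ¬ p ∣ ∏ r ∈ T, r := by
      intro h2
      rw [hpp.prime.dvd_finsetProd_iff] at h2
      obtain ⟨r, hr, h3⟩ := h2
      rw [Nat.prime_dvd_prime_iff_eq hpp (hT' r hr).1] at h3
      rw [h3] at hp
      exact hp hr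
    obtain ⟨t, ht⟩ : ∃ t : (ZMod f)ˣ, (t : ZMod f) = (p : ZMod f) := by
      have hpc : p.Coprime f := by
        rw [Nat.Prime.coprime_iff_not_dvd hpp]
        exact fun h2 => hpf (dvd_mul_of_dvd_right h2 _)
      exact ⟨ZMod.unitOfCoprime p hpc, ZMod.coe_unitOfCoprime p hpc⟩
    have hp14 : ¬ p ∣ 14 := fun h2 => hpf (dvd_mul_of_dvd_left h2 _)
    rw [prod_insert hp, mul_comm p, ← mul_assoc]
    refine NZ_step hH H h1 hψ (hfo.mul hTo) (Nat.mul_ne_zero (NeZero.ne f) hT0) (dvd_mul_right _ _)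
      hpp hpo ?_ (ha p hpp hp14) ht (hpt t ht) ih'
    intro h2
    rw [← mul_assoc, hpp.dvd_mul] at h2
    rcases h2 with h2 | h2
    · exact hpf h2
    · exact hpT h2

end

section

variable {q : ℕ} [NeZero q] {L : Type} [Field L] [NumberField L] [IsCyclotomicExtension {q} ℚ L]
  {K : IntermediateField ℚ L}

/-- the hypotheses on the field `K` -/
structure HypK (s : ℚ → ℤ) (a : ℕ → ℤ) (q : ℕ) [NeZero q] (L : Type) [Field L] [NumberField L]
    [IsCyclotomicExtension {q} ℚ L] (K : IntermediateField ℚ L) : Prop where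
  H : Symb2 s a
  ev : ∀ p : ℕ, p.Prime → ¬ p ∣ 14 → (2 : ℤ) ∣ a p
  hq : Odd q
  h1 : 1 < q
  hco : q.Coprime 14
  hodd : Odd (Module.finrank ℚ K)
  hre : IsRe q L K
  hs : SameP q L K
  hR : ∃ R : Finset (ZMod q)ˣ, IsHalf q L K R ∧ Sg q L K R
  hg2 : ∀ t : (ZMod q)ˣ, (t : ZMod q) = 2 → ∀ x : GG q L K, x ∈ Subgroup.zpowers (mkG q L K t)
  hg7 : ∀ t : (ZMod q)ˣ, (t : ZMod q) = 7 → ∀ x : GG q L K, x ∈ Subgroup.zpowers (mkG q L K t)

/-- nonvanishing -/
theorem nv_core (hH : S_HECKE) {s : ℚ → ℤ} {a : ℕ → ℤ} (hK : HypK s a q L K)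
    {f d : ℕ} [NeZero f] [NeZero (f * d)] (hfq : f ∣ q) (hdsq : Squarefree d)
    (hd : ∀ p : ℕ, p.Prime → p ∣ d → ¬ p ∣ 14 * q ∧ ∀ t : (ZMod q)ˣ, (t : ZMod q) = (p : ZMod q) →
      ∀ x : GG q L K, x ∈ Subgroup.zpowers (mkG q L K t))
    (χ : GG q L K →* ℂˣ) (hχ : χ ≠ 1) (hc : (cf q L K χ).conductor = f)
    (ε : (ZMod (f * d))ˣ → ℤ) (hε : ∀ u, ε u = 1 ∨ ε u = -1) (τ : (ZMod (f * d))ˣ → ℤ) (c : ℤ)
    (hτ : ∀ u, (2 : ℤ) ∣ τ u - s (((u : ZMod (f * d)).val : ℚ) / ((f * d : ℕ) : ℚ)) - c) :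
    ∑ u ∈ PU (f * d), ((χ (mkG q L K (sect hfq (ZMod.unitsMap (dvd_mul_right f d) u))) : ℂˣ) : ℂ) *
      (ε u : ℂ) * ((τ u : ℤ) : ℂ) ≠ 0 := by
  have hfG : Fintype (GG q L K) := Fintype.ofFinite _
  have : Finite (GG q L K →* ℂˣ) := Finite.of_injective (cf q L K) cf_inj
  have hfC : Fintype (GG q L K →* ℂˣ) := Fintype.ofFinite _
  obtain ⟨S, hS⟩ : ∃ S : Finset (GG q L K →* ℂˣ), ∀ χ, χ ∈ S := ⟨univ, fun χ => mem_univ χ⟩
  obtain ⟨R, hR, hSg⟩ := hK.hR
  -- the weights
  let κ : (ZMod (f * d))ˣ → GG q L K := fun u =>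
    mkG q L K (sect hfq (ZMod.unitsMap (dvd_mul_right f d) u))
  let w0 : GG q L K → ℤ := fun g => ∑ u ∈ (PU (f * d)).filter (fun u => κ u = g), ε u * τ u
  let w : (GG q L K →* ℂˣ) → GG q L K → ℤ := fun χ' g =>
    if (cf q L K χ').conductor = f then w0 g else if g = 1 then 1 else 0
  have hsum : ∀ {A : Type} [CommRing A] (F : GG q L K → A), ∑ g, F g * (w0 g : A) =
      ∑ u ∈ PU (f * d), F (κ u) * ((ε u * τ u : ℤ) : A) := by
    intro A _ F
    rw [← sum_fiberwise (PU (f * d)) κ]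
    refine sum_congr rfl fun g _ => ?_
    simp only [w0]
    push_cast
    rw [mul_sum]
    refine sum_congr rfl fun u hu => ?_
    rw [(mem_filter.1 hu).2]
  have hw1 : ∀ (χ' : GG q L K →* ℂˣ) (a : ℕ), a.Coprime (Fintype.card (GG q L K)) →
      w (χ' ^ a) = w χ' := by
    intro χ' a ha
    have h2 := cond_pow χ' ha
    funext g
    simp only [w, h2]
  have hw2 : ∀ (k : Type) [Field k] [CharP k 2] (χ' : GG q L K →* ℂˣ) (ψ : GG q L K →* k),
      χ' ≠ 1 → (∀ g, ψ g = 1 ↔ χ' g = 1) → ∑ g, ψ g * (w χ' g : k) ≠ 0 := by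
    intro k _ _ χ' ψ hχ' hker
    by_cases hcc : (cf q L K χ').conductor = f
    · have h4 : ∀ g, w χ' g = w0 g := fun g => if_pos hcc
      simp_rw [h4]
      rw [hsum ψ]
      have hcne : cf q L K χ' ≠ 1 := fun h => hχ' (cf_inj (h.trans cf_one.symm))
      have hf1 : 1 < f := by
        have h2 : f ≠ 1 := fun h =>
          hcne (((cf q L K χ').eq_one_iff_conductor_eq_one).2 (hcc.trans h))
        have := NeZero.ne f
        omega
      have hfo : Odd f := Odd.of_dvd_nat hK.hq hfq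
      have hf14 : f.Coprime 14 := Nat.Coprime.coprime_dvd_left hfq hK.hco
      -- the character at the level `f`
      subst hcc
      have hval : ∀ c : (ZMod q)ˣ, ((χ' (mkG q L K c) : ℂˣ) : ℂ) =
          (cf q L K χ').primitiveCharacter ((ZMod.unitsMap hfq c :
            (ZMod (cf q L K χ').conductor)ˣ) : ZMod (cf q L K χ').conductor) := by
        intro c
        rw [← cf_apply]
        exact prim_unit _ c
      have hkf : ∀ c : (ZMod q)ˣ, ZMod.unitsMap hfq c = 1 → ψ (mkG q L K c) = 1 := by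
        intro c hc
        rw [hker]
        apply Units.ext
        rw [hval, hc, Units.val_one, map_one, Units.val_one]
      obtain ⟨ψf, hψf, hψf'⟩ := exists_psif hfq ψ hkf
      have hneg : ∀ x : (ZMod q)ˣ, mkG q L K (-x) = mkG q L K x := by
        intro x
        rw [← neg_one_mul, map_mul, mkG_one.2 hK.hre, one_mul]
      have hcomp : ∀ c, ψf (ZMod.unitsMap hfq c) = ψ (mkG q L K c) := fun c =>
        (DFunLike.congr_fun hψf c).symm
      have hev : ∀ x, ψf (-x) = ψf x := by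
        intro x
        obtain ⟨c, rfl⟩ := ZMod.unitsMap_surjective hfq x
        rw [← unitsMap_neg, hcomp, hcomp, hneg]
      have hψne : ψ ≠ 1 := by
        intro h
        apply hχ'
        refine MonoidHom.ext fun g => ?_
        exact (hker g).1 (by rw [h]; rfl)
      -- the sum at the level `f`
      have hco2 : Nat.Coprime 2 q := by
        rw [Nat.coprime_two_left]; exact hK.hq
      have hco7 : Nat.Coprime 7 q := (Nat.Coprime.coprime_dvd_right (by norm_num) hK.hco).symm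
      have hbase : NZ s ψf (cf q L K χ').conductor := by
        intro _ h
        have h5 := wf_ne' hK.H hK.hq hK.h1 hK.hco hK.hre hR hSg
          (t2 := ZMod.unitOfCoprime 2 hco2) (t7 := ZMod.unitOfCoprime 7 hco7)
          (by rw [ZMod.coe_unitOfCoprime]; norm_num) (by rw [ZMod.coe_unitOfCoprime]; norm_num)
          (hK.hg2 _ (by rw [ZMod.coe_unitOfCoprime]; norm_num))
          (hK.hg7 _ (by rw [ZMod.coe_unitOfCoprime]; norm_num)) χ' hχ' ψ hker hfq hf1
          (hK.hs _ (cf_mem χ') hcne) (cf q L K χ').primitiveCharacter hval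
          (cf q L K χ').primitiveCharacter_isPrimitive
        rw [sum_wf] at h5
        intro h6
        apply h5
        rw [← h6]
        refine sum_congr rfl fun u _ => ?_
        rw [← hψf']
        congr 2
        apply Units.ext
        rw [ZMod.unitsMap_val]
        exact (ZMod.cast_id _ _).symm
      have hprod := NZ_prod hH hK.H.toSymb hf1 hfo hev hK.ev hbase d.primeFactors (by
        intro p hp
        have hpp := Nat.prime_of_mem_primeFactors hp
        obtain ⟨h5, h6⟩ := hd p hpp (Nat.dvd_of_mem_primeFactors hp)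
        refine ⟨hpp, fun h7 => h5 (h7.trans (mul_dvd_mul_left 14 hfq)), fun t ht h8 => ?_⟩
        have hpc : p.Coprime q := by
          rw [Nat.Prime.coprime_iff_not_dvd hpp]
          exact fun h9 => h5 (dvd_mul_of_dvd_right h9 _)
        have h9 := h6 (ZMod.unitOfCoprime p hpc) (ZMod.coe_unitOfCoprime p hpc)
        have h10 : ZMod.unitsMap hfq (ZMod.unitOfCoprime p hpc) = t := by
          apply Units.ext
          rw [ZMod.unitsMap_val, ZMod.coe_unitOfCoprime, ht, ZMod.cast_natCast hfq]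
        apply hψne
        refine MonoidHom.ext fun g => ?_
        obtain ⟨n, hn⟩ : ∃ n : ℕ, mkG q L K (ZMod.unitOfCoprime p hpc) ^ n = g := by
          have h11 := h9 g
          rw [← mem_powers_iff_mem_zpowers] at h11
          obtain ⟨n, hn⟩ := h11
          exact ⟨n, hn⟩
        rw [← hn, map_pow, ← hcomp, h10, h8, one_pow]
        rfl)
      rw [Nat.prod_primeFactors_of_squarefree hdsq] at hprod
      have h5 := hprod inferInstance (dvd_mul_right _ d)
      -- the sum of the character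
      have hdo : Odd d := by
        rw [← Nat.prod_primeFactors_of_squarefree hdsq]
        refine Finset.prod_induction _ Odd (fun _ _ => Odd.mul) odd_one fun r hr => ?_
        have hrp := Nat.prime_of_mem_primeFactors hr
        refine hrp.odd_of_ne_two ?_
        rintro rfl
        exact (hd 2 hrp (Nat.dvd_of_mem_primeFactors hr)).1 (dvd_mul_of_dvd_left (by norm_num) _)
      have hMo : Odd ((cf q L K χ').conductor * d) := hfo.mul hdo
      have hM1 : 1 < (cf q L K χ').conductor * d :=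
        lt_of_lt_of_le hf1 (Nat.le_mul_of_pos_right _ hdo.pos)
      have hψs : ∑ u ∈ PU ((cf q L K χ').conductor * d),
          (ψf.comp (ZMod.unitsMap (dvd_mul_right (cf q L K χ').conductor d))) u = 0 := by
        obtain ⟨g, hg⟩ : ∃ g, ψ g ≠ 1 := by
          by_contra hcon
          push Not at hcon
          exact hψne (MonoidHom.ext hcon)
        obtain ⟨c, rfl⟩ := mkG_surj g
        obtain ⟨x, hx⟩ := ZMod.unitsMap_surjective (dvd_mul_right (cf q L K χ').conductor d)
          (ZMod.unitsMap hfq c)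
        refine psi_sum hMo hM1 (a := x) ?_ ?_
        · intro y
          rw [MonoidHom.comp_apply, MonoidHom.comp_apply, unitsMap_neg, hev]
        · rw [MonoidHom.comp_apply, hx, hcomp]
          exact hg
      intro h6
      apply h5
      have h7 : ∀ u : (ZMod ((cf q L K χ').conductor * d))ˣ, ψ (κ u) * ((ε u * τ u : ℤ) : k) =
          ψf (ZMod.unitsMap (dvd_mul_right _ d) u) *
            ((s (((u : ZMod ((cf q L K χ').conductor * d)).val : ℚ) /
              (((cf q L K χ').conductor * d : ℕ) : ℚ)) : ℤ) : k) +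
          (ψf.comp (ZMod.unitsMap (dvd_mul_right (cf q L K χ').conductor d))) u * (c : k) := by
        intro u
        have h8 : ψ (κ u) = ψf (ZMod.unitsMap (dvd_mul_right _ d) u) := (hψf' _).symm
        rw [h8, MonoidHom.comp_apply, ← mul_add]
        congr 1
        obtain ⟨e, he⟩ := hτ u
        have h9 : τ u = s (((u : ZMod ((cf q L K χ').conductor * d)).val : ℚ) /
              (((cf q L K χ').conductor * d : ℕ) : ℚ)) + c + 2 * e := by linear_combination he
        have h10 : (2 : k) = 0 := CharTwo.two_eq_zero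
        rcases hε u with h11 | h11
        · rw [h11, one_mul, h9]
          push_cast
          linear_combination (e : k) * h10
        · rw [h11, h9]
          push_cast
          generalize ((s (((u : ZMod ((cf q L K χ').conductor * d)).val : ℚ) /
              (((cf q L K χ').conductor : ℚ) * (d : ℚ))) : ℤ) : k) = X
          linear_combination (-(e : k) - X - c) * h10
      rw [sum_congr rfl fun u _ => h7 u, sum_add_distrib, ← sum_mul, hψs, zero_mul, add_zero] at h6
      exact h6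
    · have h4 : ∀ g, w χ' g = if g = 1 then 1 else 0 := fun g => if_neg hcc
      simp_rw [h4]
      rw [Finset.sum_eq_single (1 : GG q L K)]
      · rw [if_pos rfl, map_one]
        push_cast
        rw [one_mul]
        exact one_ne_zero
      · intro g _ hg
        rw [if_neg hg]
        push_cast
        rw [mul_zero]
      · intro h
        exact absurd (mem_univ _) h
  obtain ⟨N, hNo, hN⟩ := unitG (card_odd hK.hodd) S hS w hw1 hw2
  have hN0 : (N : ℂ) ≠ 0 := by
    intro h0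
    have : N = 0 := by exact_mod_cast h0
    rw [this] at hNo
    exact absurd hNo (by decide)
  rw [← hN] at hN0
  have h2 := prod_ne_zero_iff.1 hN0 χ (mem_erase.2 ⟨hχ, hS χ⟩)
  intro h3
  apply h2
  have h4 : ∀ g, w χ g = w0 g := fun g => if_pos hc
  simp_rw [h4]
  rw [hsum (fun g => ((χ g : ℂˣ) : ℂ)), ← h3]
  refine sum_congr rfl fun u _ => ?_
  push_cast
  ring

end

end Pool.Agent.Y682.XD
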