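import Pool.Agent.Y682.XD.Nv
import Pool.Agent.Y682.XT.Val2

/-!
# Nonvanishing of the central values of the twists by mixed characters
-/

set_option autoImplicit false

open Finset NumberField IsCyclotomicExtension.Rat H300.HW

namespace Pool.Agent.Y682.XD

open scoped Classical

open Pool.Agent.Y687 (Symb Symb2)

open Pool.Agent.Y682.XT

open Pool.Agent.W97.MT (ap E14 II)

section

variable {q : ℕ} [NeZero q] {L : Type} [Field L] [NumberField L] [IsCyclotomicExtension {q} ℚ L]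
  {K : IntermediateField ℚ L}

lemma nv_gen (hH : S_HECKE) {s : ℚ → ℤ} {a : ℕ → ℤ} (hK : HypK s a q L K) {m : ℕ} [NeZero (q * m)]
    {f d : ℕ} [NeZero f] (hfq : f ∣ q) (hdsq : Squarefree d)
    (hd : ∀ p : ℕ, p.Prime → p ∣ d → ¬ p ∣ 14 * q ∧ ∀ t : (ZMod q)ˣ, (t : ZMod q) = (p : ZMod q) →
      ∀ x : GG q L K, x ∈ Subgroup.zpowers (mkG q L K t))
    (χ' : GG q L K →* ℂˣ) (hχ' : χ' ≠ 1) (hc : (cf q L K χ').conductor = f)
    {h : ℕ} {χ : DirichletCharacter ℂ (q * m)} (hχ : χ ^ (2 * h) = 1)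
    (hψ : χ ^ (h + 1) = DirichletCharacter.changeLevel (dvd_mul_right q m) (cf q L K χ')) :
    ∀ (F : ℕ) [NeZero F], F = f * d → ∀ (hFN : F ∣ q * m) (ρ : DirichletCharacter ℂ F),
      DirichletCharacter.changeLevel hFN ρ = χ → ∀ (τ : (ZMod F)ˣ → ℤ) (c : ℤ),
      (∀ u, (2 : ℤ) ∣ τ u - s (((u : ZMod F).val : ℚ) / (F : ℚ)) - c) →
      ∑ u ∈ PU F, ρ (u : ZMod F) * (τ u : ℂ) ≠ 0 := by
  intro F _ hF hFN ρ hρ τ c0 hτ
  subst hF
  -- lifts of the units
  have hlift : ∀ u : (ZMod (f * d))ˣ, ∃ c : (ZMod (q * m))ˣ, ZMod.unitsMap hFN c = u :=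
    fun u => ZMod.unitsMap_surjective hFN u
  have hval : ∀ c : (ZMod (q * m))ˣ, ρ ((ZMod.unitsMap hFN c : (ZMod (f * d))ˣ) : ZMod (f * d)) =
      χ (c : ZMod (q * m)) := by
    intro c
    rw [← hρ, DirichletCharacter.changeLevel_eq_cast_of_dvd, ZMod.unitsMap_val]
  have hsq : ∀ u : (ZMod (f * d))ˣ, (ρ (u : ZMod (f * d)) ^ h) ^ 2 = 1 := by
    intro u
    obtain ⟨c, rfl⟩ := hlift u
    rw [hval, ← pow_mul, mul_comm h 2, ← MulChar.pow_apply_coe, hχ, MulChar.one_apply_coe]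
  let ε : (ZMod (f * d))ˣ → ℤ := fun u => if ρ (u : ZMod (f * d)) ^ h = 1 then 1 else -1
  have hε : ∀ u, ε u = 1 ∨ ε u = -1 := by
    intro u
    by_cases h1 : ρ (u : ZMod (f * d)) ^ h = 1
    · left; exact if_pos h1
    · right; exact if_neg h1
  have hε2 : ∀ u, (ε u : ℂ) = ρ (u : ZMod (f * d)) ^ h := by
    intro u
    by_cases h1 : ρ (u : ZMod (f * d)) ^ h = 1
    · have : ε u = 1 := if_pos h1
      rw [this, h1, Int.cast_one]
    · have : ε u = -1 := if_neg h1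
      rw [this]
      have h2 := hsq u
      rcases sq_eq_sq_iff_eq_or_eq_neg.1 (h2.trans (one_pow 2).symm) with h3 | h3
      · exact absurd h3 h1
      · rw [h3]; push_cast; rfl
  have key := nv_core hH hK hfq hdsq hd χ' hχ' hc ε hε τ c0 hτ
  intro h0
  apply key
  rw [← h0]
  refine sum_congr rfl fun u _ => ?_
  congr 1
  obtain ⟨c, rfl⟩ := hlift u
  -- the value of `χ'`
  have h1 : ((χ' (mkG q L K (sect hfq (ZMod.unitsMap (dvd_mul_right f d)
      (ZMod.unitsMap hFN c)))) : ℂˣ) : ℂ) = χ (c : ZMod (q * m)) ^ (h + 1) := by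
    subst hc
    rw [← cf_apply, prim_unit (cf q L K χ')]
    have h2 : ZMod.unitsMap (cf q L K χ').conductor_dvd_level (sect hfq
        (ZMod.unitsMap (dvd_mul_right (cf q L K χ').conductor d) (ZMod.unitsMap hFN c))) =
        ZMod.unitsMap (cf q L K χ').conductor_dvd_level (ZMod.unitsMap (dvd_mul_right q m) c) := by
      rw [map_sect]
      rw [← MonoidHom.comp_apply, ← MonoidHom.comp_apply, ZMod.unitsMap_comp, ZMod.unitsMap_comp]
    rw [h2, ← prim_unit, ← MulChar.pow_apply_coe, hψ,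
      DirichletCharacter.changeLevel_eq_cast_of_dvd, ZMod.unitsMap_val]
  rw [h1, hε2, hval]
  have h3 : (χ (c : ZMod (q * m)) ^ h) ^ 2 = 1 := by rw [← hval]; exact hsq _
  linear_combination χ (c : ZMod (q * m)) * h3

/-- the inverse character -/
lemma conj_sum {F : ℕ} [NeZero F] (τ : (ZMod F)ˣ → ℤ) (ρ : DirichletCharacter ℂ F)
    (h : ∑ u ∈ PU F, ρ (u : ZMod F) * (τ u : ℂ) ≠ 0) :
    ∑ u ∈ PU F, ρ⁻¹ (u : ZMod F) * (τ u : ℂ) ≠ 0 := by
  intro h0
  apply h
  have h1 := congrArg (starRingEnd ℂ) h0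
  rw [map_sum, map_zero] at h1
  rw [← h1]
  refine sum_congr rfl fun u _ => ?_
  rw [map_mul, map_intCast]
  congr 1
  have h2 : (starRingEnd ℂ) (ρ⁻¹ (u : ZMod F)) = (ρ⁻¹)⁻¹ (u : ZMod F) := MulChar.star_apply' _ _
  rw [h2, inv_inv]

/-- the sums for the odd characters -/
lemma II_sum_odd {t : ℚ → ℤ} {Om : ℝ} {f : ℕ} [NeZero f]
    (ht : ∀ u : (ZMod f)ˣ, (II (((u : ZMod f).val : ℚ) / f)).im =
      t (((u : ZMod f).val : ℚ) / f) * Om)
    (hf : Odd f) (h1 : 1 < f) {ρ : DirichletCharacter ℂ f} (he : ρ (-1) = -1) :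
    ∑ u : (ZMod f)ˣ, ρ (u : ZMod f) * II (((u : ZMod f).val : ℚ) / f) =
      (2 * Om * Complex.I) *
        ∑ u ∈ PU f, ρ (u : ZMod f) * ((t (((u : ZMod f).val : ℚ) / f) : ℤ) : ℂ) := by
  have hH := isH_PU hf h1
  have h2 : (univ : Finset (ZMod f)ˣ) = PU f ∪ (PU f).image (fun u => -u) := by
    ext u
    simp only [mem_univ, mem_union, mem_image, true_iff]
    rcases hH.mem u with h | h
    · exact Or.inl h
    · exact Or.inr ⟨-u, h, neg_neg u⟩
  have h3 : Disjoint (PU f) ((PU f).image (fun u => -u)) := by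
    rw [disjoint_left]
    intro u hu hu'
    rw [mem_image] at hu'
    obtain ⟨v, hv, rfl⟩ := hu'
    exact hH.neg v hv hu
  rw [h2, sum_union h3, sum_image (fun a _ b _ h => neg_injective h), ← sum_add_distrib, mul_sum]
  refine sum_congr rfl fun u _ => ?_
  have h4 : II ((((-u : (ZMod f)ˣ) : ZMod f).val : ℚ) / f) =
      (starRingEnd ℂ) (II (((u : ZMod f).val : ℚ) / f)) := by
    rw [val_neg_unit h1, ← Pool.Agent.W97.MT.II_conj,
      ← Pool.Agent.W97.MT.II_add_one (-(((u : ZMod f).val : ℚ) / f))]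
    congr 1
    rw [Nat.cast_sub (ZMod.val_lt (u : ZMod f)).le]
    field_simp
    ring
  have h5 : ρ ((-u : (ZMod f)ˣ) : ZMod f) = -ρ (u : ZMod f) := by
    rw [Units.val_neg, ← neg_one_mul, map_mul, he, neg_one_mul]
  rw [h4, h5]
  have h6 : II (((u : ZMod f).val : ℚ) / f) - (starRingEnd ℂ) (II (((u : ZMod f).val : ℚ) / f)) =
      2 * Complex.I * ((II (((u : ZMod f).val : ℚ) / f)).im : ℂ) := by
    rw [Complex.sub_conj]
    push_cast
    ring
  have h7 : ((II (((u : ZMod f).val : ℚ) / f)).im : ℂ) =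
      (t (((u : ZMod f).val : ℚ) / f) : ℂ) * Om := by
    rw [ht u]
    push_cast
    rfl
  rw [h7] at h6
  linear_combination ρ (u : ZMod f) * h6

/-- the data of the modular symbol -/
structure Sy (s t : ℚ → ℤ) (Op Om : ℝ) : Prop where
  pos : 0 < Op
  pos' : 0 < Om
  H : Symb2 s (fun l => ap E14 l)
  re : ∀ r : ℚ, (3 : ℝ) * (II r).re = s r * Op
  im : ∀ r : ℚ, r.den.Coprime 14 → (II r).im = t r * Om ∧ (2 : ℤ) ∣ t r - s r - 1

/-- **Nonvanishing** of the central values -/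
theorem nv_char (hH : S_HECKE) (hCond : S_COND) {s t : ℚ → ℤ} {Op Om : ℝ} (hS : Sy s t Op Om)
    {a : ℕ → ℤ} (hK : HypK s a q L K)
    {m : ℕ} [NeZero (q * m)] (hmo : Odd m) (hmsq : Squarefree m)
    (hm : ∀ p : ℕ, p.Prime → p ∣ m → ¬ p ∣ 14 * q ∧ ∀ t : (ZMod q)ˣ, (t : ZMod q) = (p : ZMod q) →
      ∀ x : GG q L K, x ∈ Subgroup.zpowers (mkG q L K t))
    {h : ℕ} (hh : Odd h) {χ : DirichletCharacter ℂ (q * m)}
    (hχ : χ ^ (2 * h) = 1) {ψ : DirichletCharacter ℂ q} (hψY : ψ ∈ YY q L K) (hψ1 : ψ ≠ 1)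
    (hψ : χ ^ (h + 1) = DirichletCharacter.changeLevel (dvd_mul_right q m) ψ) {x g : ℂ}
    (hG : haveI : NeZero χ.conductor := ⟨χ.conductor_ne_zero⟩
      g * x = ∑ u : (ZMod χ.conductor)ˣ, (χ.primitiveCharacter)⁻¹ (u : ZMod χ.conductor) *
          II (((u : ZMod χ.conductor).val : ℚ) / χ.conductor)) : x ≠ 0 := by
  have hnz : NeZero χ.conductor := ⟨χ.conductor_ne_zero⟩
  have hqm : q.Coprime m := by
    refine Nat.coprime_of_dvd ?_
    intro p hp hpq hpm
    exact (hm p hp hpm).1 (dvd_mul_of_dvd_right hpq _)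
  have hco : χ.conductor.Coprime 14 := by
    refine Nat.Coprime.coprime_dvd_left χ.conductor_dvd_level (Nat.Coprime.mul_left hK.hco ?_)
    refine Nat.coprime_of_dvd ?_
    intro p hp hpm hp14
    exact (hm p hp hpm).1 (dvd_mul_of_dvd_left hp14 _)
  obtain ⟨χ', rfl⟩ := cf_surj hψY
  obtain ⟨d, hdm, hd⟩ := hCond q m hK.hq hmo hmsq hqm χ h hh hχ _ hψ (hK.hs _ hψY hψ1)
  have hnf : NeZero (cf q L K χ').conductor := ⟨(cf q L K χ').conductor_ne_zero⟩
  have hχ' : χ' ≠ 1 := fun h1 => hψ1 (by rw [h1]; exact cf_one)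
  have h1 := nv_gen hH hK (cf q L K χ').conductor_dvd_level (hmsq.squarefree_of_dvd hdm)
    (fun p hp hpd => hm p hp (hpd.trans hdm)) χ' hχ' rfl hχ hψ χ.conductor hd
    χ.conductor_dvd_level χ.primitiveCharacter χ.changeLevel_primitiveCharacter
  have hcne : cf q L K χ' ≠ 1 := hψ1
  have hf1 : 1 < χ.conductor := by
    have h3 : (cf q L K χ').conductor ≠ 1 := fun h =>
      hcne (((cf q L K χ').eq_one_iff_conductor_eq_one).2 h)
    have h4 := (cf q L K χ').conductor_ne_zero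
    have h5 : (cf q L K χ').conductor ≤ χ.conductor :=
      Nat.le_of_dvd (Nat.pos_of_ne_zero χ.conductor_ne_zero) (hd ▸ dvd_mul_right _ _)
    omega
  have hfo : Odd χ.conductor := Odd.of_dvd_nat (hK.hq.mul hmo) χ.conductor_dvd_level
  intro h0
  rw [h0, mul_zero] at hG
  rcases χ.primitiveCharacter.even_or_odd with he | he
  · have he' : (χ.primitiveCharacter)⁻¹ (-1) = 1 := by
      rw [MulChar.inv_apply_eq_inv', he, inv_one]
    rw [II_sum hS.re hfo hf1 he'] at hG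
    have h2 := conj_sum _ χ.primitiveCharacter (h1 (fun u => s (((u : ZMod χ.conductor).val : ℚ) /
      (χ.conductor : ℚ))) 0 (fun u => by rw [sub_self, sub_zero]; exact dvd_zero _))
    have h3 : (2 * (Op : ℂ) / 3) ≠ 0 := by
      have : (Op : ℂ) ≠ 0 := by exact_mod_cast hS.pos.ne'
      exact div_ne_zero (mul_ne_zero two_ne_zero this) (by norm_num)
    exact mul_ne_zero h3 h2 hG.symm
  · have he' : (χ.primitiveCharacter)⁻¹ (-1) = -1 := by
      rw [MulChar.inv_apply_eq_inv', he, inv_neg, inv_one]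
    have hden : ∀ u : (ZMod χ.conductor)ˣ,
        ((((u : ZMod χ.conductor).val : ℚ) / χ.conductor : ℚ)).den.Coprime 14 := by
      intro u
      refine Nat.Coprime.coprime_dvd_left ?_ hco
      have h4 := Rat.den_dvd ((u : ZMod χ.conductor).val : ℤ) (χ.conductor : ℤ)
      rw [Rat.divInt_eq_div, Int.cast_natCast, Int.cast_natCast] at h4
      exact Int.natCast_dvd_natCast.1 h4
    rw [II_sum_odd (t := t) (fun u => (hS.im _ (hden u)).1) hfo hf1 he'] at hG
    have h2 := conj_sum _ χ.primitiveCharacter (h1 (fun u => t (((u : ZMod χ.conductor).val : ℚ) /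
      (χ.conductor : ℚ))) 1 (fun u => (hS.im _ (hden u)).2))
    have h3 : (2 * (Om : ℂ) * Complex.I) ≠ 0 := by
      have : (Om : ℂ) ≠ 0 := by exact_mod_cast hS.pos'.ne'
      exact mul_ne_zero (mul_ne_zero two_ne_zero this) Complex.I_ne_zero
    exact mul_ne_zero h3 h2 hG.symm

end

end Pool.Agent.Y682.XD
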